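import Pool.Agent.H9.AT.Defs
import Pool.Agent.H2.UF.Brd

/-!
# [H9 AT REL] The relators of a circuit (60 min)

`psi pi K (alt (of i) (of j) m) = alt (cw pi K i) (cw pi K j) m` (`map_alt`, `FreeGroup.lift_apply_of`). Write `i = pi s`, `j = pi t` (`surj`), `Cdat.lab`.
`i = j`: the relator is `x * x⁻¹ = 1`. Label `2`: all letters of `cw pi K i` commute with all letters of `cw pi K j` (`cw_mem`, `comm_far`: `pi u = i`, `pi v = j`, then `u ≠ v`, `u + 1 ≠ v`, `v + 1 ≠ u`, since `pi (u + 1)` is determined by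
`pi u`: `pi u = pi u' → pi (u + 1) = pi (u' + 1)` by `eq`), so the relator is `1`.
Label `3`: WLOG `j = pi (s + 1)` (otherwise exchange `i` and `j`: the relator for `(j, i)` is the inverse of the one for `(i, j)`). So `pi u = i ↔ pi (u + 1) = j`. CLAIM (induction on `K`): there are `x` in `ap lin {u | |u| ≤ K, u < K, pi u = i}` and
`y` in `ap lin {u | |u| ≤ K, -K < u, pi u = j}` with `alt x y 3 = alt y x 3`, `cw pi K i = x * gl pi i K`, `cw pi K j = y * gl pi j (-K)`. `K = 0`: `x = y = 1`. Step: `x' = x * (gl i K * gl i (-K-1))`, `y' = y * (gl j (K+1) * gl j (-K))`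
(`gl_comm` to reorder). The pairs `(x, y)`, `(gl i K, gl j (K+1))`, `(gl i (-K-1), gl j (-K))` commute with one another (supports: a letter of type `i` and a letter of type `j` commute if they are not neighbours; `u` of type `i` and `v` of type `j`
are neighbours only if `v = u + 1`, since `N ≥ 3`) and each satisfies the relation of length `3` (both factors are `1` or both are generators: `gen_rel`, `lin_succ`): `alt_mul` of `H2/UF/Brd.lean` (in the group).
END: `e = gl i K`, `f = gl j (-K)` are in `ap lin (far K 0)`, commute with `x`, `y` as before: the relator is `alt x y 3 * alt e f 3 * (alt y x 3 * alt f e 3)⁻¹ = alt e f 3 * (alt f e 3)⁻¹`, in `ap lin (far K 0)`.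
-/

set_option autoImplicit false

namespace Pool.Agent.H9.AT

open Pool.H8.CDW Pool.Agent.H52.PAG Pool.Agent.H75.INF Pool.Agent.H54.TF Pool.Agent.H54.AF Pool.Agent.H2.UF

variable {B : Type} {M : CoxeterMatrix B} {N : ℤ} {pi : ℤ → B}

private theorem glc {X : Set ℤ} {x : Art lin} (hx : x ∈ ap lin X) (i : B) (s : ℤ)
    (h : pi s = i → ∀ u ∈ X, u + 2 ≤ s ∨ s + 2 ≤ u) : Commute x (gl pi i s) := by
  unfold gl
  by_cases hs : pi s = i
  · rw [if_pos hs]
    refine comm_far (X := X) (Y := {s}) ?_ hx (gen_mem_ap rfl)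
    rintro u hu v rfl
    exact h hs u hu
  · rw [if_neg hs]
    exact Commute.one_right _

private theorem glgl (i j : B) (s t : ℤ) (h : pi s = i → pi t = j → s + 2 ≤ t ∨ t + 2 ≤ s) :
    Commute (gl pi i s) (gl pi j t) := by
  by_cases hs : pi s = i
  · refine glc (X := {s}) (gl_mem fun _ => rfl) j t ?_
    rintro ht u rfl
    exact h hs ht
  · unfold gl
    rw [if_neg hs]
    exact Commute.one_left _

/-- the type `j` follows the type `i` -/
private structure Nb (pi : ℤ → B) (i j : B) : Prop where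
  nx : ∀ u, pi u = i ↔ pi (u + 1) = j
  ii : ∀ u v, pi u = i → pi v = i → u + 1 ≠ v
  jj : ∀ u v, pi u = j → pi v = j → u + 1 ≠ v
  ji : ∀ u v, pi u = j → pi v = i → u + 1 ≠ v
  ij : ∀ u v, pi u = i → pi v = j → u ≠ v

private theorem nx' (h : Cdat M N pi) {u v : ℤ} (e : pi u = pi v) : pi (u + 1) = pi (v + 1) := by
  rw [h.eq] at e ⊢
  rwa [show v + 1 - (u + 1) = v - u by ring]

private theorem nx'' (h : Cdat M N pi) {u v : ℤ} (e : pi (u + 1) = pi (v + 1)) : pi u = pi v := by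
  rw [h.eq] at e ⊢
  rwa [show v + 1 - (u + 1) = v - u by ring] at e

private theorem nb_mk (h : Cdat M N pi) (s : ℤ) : Nb pi (pi s) (pi (s + 1)) where
  nx := fun u => ⟨fun e => nx' h e, fun e => nx'' h e⟩
  ii := by
    rintro u _ h1 h2 rfl
    exact h.ne u (h1.trans h2.symm)
  jj := by
    rintro u _ h1 h2 rfl
    exact h.ne u (h1.trans h2.symm)
  ji := by
    rintro u _ h1 h2 rfl
    have h3 : pi (u + 1) = pi (s + 1 + 1) := nx' h h1
    rw [h2, h.eq] at h3
    have h4 := h.hN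
    rw [show s + 1 + 1 - s = 2 by ring] at h3
    have h5 := Int.le_of_dvd two_pos h3
    omega
  ij := by
    rintro u _ h1 h2 rfl
    exact h.ne s (h1.symm.trans h2)

private theorem glrel {i j : B} (hb : Nb pi i j) (u v : ℤ) (huv : u + 1 = v) :
    alt (gl pi i u) (gl pi j v) 3 = alt (gl pi j v) (gl pi i u) 3 := by
  subst huv
  unfold gl
  by_cases hu : pi u = i
  · rw [if_pos hu, if_pos ((hb.nx u).1 hu)]
    have h1 : lin u (u + 1) ≠ 0 := lin_ne _ _
    have h2 := gen_rel h1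
    rwa [lin_succ] at h2
  · rw [if_neg hu, if_neg fun h1 => hu ((hb.nx u).2 h1)]

private theorem rel3 {i j : B} (hpi : ∀ s, pi s ≠ pi (s + 1)) (hb : Nb pi i j) (K : ℕ) :
    ∃ x ∈ ap lin {u : ℤ | -(K : ℤ) ≤ u ∧ u < K ∧ pi u = i},
    ∃ y ∈ ap lin {u : ℤ | -(K : ℤ) < u ∧ u ≤ K ∧ pi u = j},
      alt x y 3 = alt y x 3 ∧ cw pi K i = x * gl pi i K ∧ cw pi K j = y * gl pi j (-K) := by
  induction K with
  | zero =>
    refine ⟨1, one_mem _, 1, one_mem _, rfl, ?_, ?_⟩
    · rw [one_mul]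
      rfl
    · rw [one_mul]
      rfl
  | succ K ih =>
    obtain ⟨x, hx, y, hy, hxy, hi, hj⟩ := ih
    have e1 : ((K + 1 : ℕ) : ℤ) = (K : ℤ) + 1 := by push_cast; rfl
    rw [e1]
    have hK : (0 : ℤ) ≤ K := Int.natCast_nonneg K
    refine ⟨x * (gl pi i K * gl pi i (-((K : ℤ) + 1))), ?_,
      y * (gl pi j ((K : ℤ) + 1) * gl pi j (-(K : ℤ))), ?_, ?_, ?_, ?_⟩
    · refine mul_mem (ap_mono ?_ hx) (mul_mem (gl_mem ?_) (gl_mem ?_))
      · rintro u ⟨h1, h2, h3⟩
        exact ⟨by omega, by omega, h3⟩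
      · exact fun h1 => ⟨by omega, by omega, h1⟩
      · exact fun h1 => ⟨by omega, by omega, h1⟩
    · refine mul_mem (ap_mono ?_ hy) (mul_mem (gl_mem ?_) (gl_mem ?_))
      · rintro u ⟨h1, h2, h3⟩
        exact ⟨by omega, by omega, h3⟩
      · exact fun h1 => ⟨by omega, by omega, h1⟩
      · exact fun h1 => ⟨by omega, by omega, h1⟩
    · -- commutations
      have c1 : Commute x (gl pi i K) := glc hx i _ (by
        rintro h1 u ⟨h2, h3, h4⟩
        have := hb.ii u K h4 h1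
        omega)
      have c2 : Commute x (gl pi i (-((K : ℤ) + 1))) := glc hx i _ (by
        rintro h1 u ⟨h2, h3, h4⟩
        have := hb.ii _ u h1 h4
        omega)
      have c3 : Commute x (gl pi j ((K : ℤ) + 1)) := glc hx j _ (by
        rintro h1 u ⟨h2, h3, h4⟩
        omega)
      have c4 : Commute x (gl pi j (-(K : ℤ))) := glc hx j _ (by
        rintro h1 u ⟨h2, h3, h4⟩
        have := hb.ji _ u h1 h4
        have := hb.ij u _ h4 h1
        omega)
      have c5 : Commute y (gl pi i K) := glc hy i _ (by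
        rintro h1 u ⟨h2, h3, h4⟩
        have := hb.ji u _ h4 h1
        have := hb.ij _ u h1 h4
        omega)
      have c6 : Commute y (gl pi i (-((K : ℤ) + 1))) := glc hy i _ (by
        rintro h1 u ⟨h2, h3, h4⟩
        omega)
      have c7 : Commute y (gl pi j ((K : ℤ) + 1)) := glc hy j _ (by
        rintro h1 u ⟨h2, h3, h4⟩
        have := hb.jj u _ h4 h1
        omega)
      have c8 : Commute y (gl pi j (-(K : ℤ))) := glc hy j _ (by
        rintro h1 u ⟨h2, h3, h4⟩
        have := hb.jj _ u h1 h4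
        omega)
      have d1 : Commute (gl pi i (K : ℤ)) (gl pi i (-((K : ℤ) + 1))) := gl_comm hpi _ _ _
      have d2 : Commute (gl pi i (K : ℤ)) (gl pi j (-(K : ℤ))) := glgl _ _ _ _ (by
        intro h1 h2
        have := hb.ij _ _ h1 h2
        omega)
      have d3 : Commute (gl pi j ((K : ℤ) + 1)) (gl pi i (-((K : ℤ) + 1))) := glgl _ _ _ _ (by
        intro h1 h2
        omega)
      have d4 : Commute (gl pi j ((K : ℤ) + 1)) (gl pi j (-(K : ℤ))) := gl_comm hpi _ _ _
      have r1 := glrel hb (K : ℤ) ((K : ℤ) + 1) rfl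
      have r2 := glrel hb (-((K : ℤ) + 1)) (-(K : ℤ)) (by ring)
      rw [alt_mul (c1.mul_right c2) (c3.mul_right c4) (c5.mul_right c6) (c7.mul_right c8),
        alt_mul (c7.mul_right c8) (c5.mul_right c6) (c3.mul_right c4) (c1.mul_right c2),
        alt_mul d1 d2 d3 d4, alt_mul d4 d3 d2 d1, hxy, r1, r2]
    · have h1 : cw pi (K + 1) i =
          cw pi K i * (gl pi i (-((K : ℤ) + 1)) * gl pi i ((K : ℤ) + 1)) := rfl
      rw [h1, hi]
      simp only [mul_assoc]
    · have h1 : cw pi (K + 1) j =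
          cw pi K j * (gl pi j (-((K : ℤ) + 1)) * gl pi j ((K : ℤ) + 1)) := rfl
      rw [h1, hj]
      simp only [mul_assoc]
      rw [(gl_comm hpi j (-((K : ℤ) + 1)) ((K : ℤ) + 1)).eq, ← mul_assoc (gl pi j (-(K : ℤ))),
        (gl_comm hpi j (-(K : ℤ)) ((K : ℤ) + 1)).eq, mul_assoc]

private theorem psi_rel (K : ℕ) (i j : B) (m : ℕ) :
    psi pi K (alt (FreeGroup.of i) (FreeGroup.of j) m * (alt (FreeGroup.of j) (FreeGroup.of i) m)⁻¹) =
      alt (cw pi K i) (cw pi K j) m * (alt (cw pi K j) (cw pi K i) m)⁻¹ := by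
  unfold psi
  rw [map_mul, map_inv, map_alt, map_alt, FreeGroup.lift_apply_of, FreeGroup.lift_apply_of]

private theorem rel3' {i j : B} (hpi : ∀ s, pi s ≠ pi (s + 1)) (hb : Nb pi i j) (K : ℕ) :
    alt (cw pi K i) (cw pi K j) 3 * (alt (cw pi K j) (cw pi K i) 3)⁻¹ ∈ ap lin (far K 0) := by
  obtain ⟨x, hx, y, hy, hxy, hi, hj⟩ := rel3 hpi hb K
  have hK : (0 : ℤ) ≤ K := Int.natCast_nonneg K
  have c1 : Commute x (gl pi i K) := glc hx i _ (by
    rintro h1 u ⟨h2, h3, h4⟩
    have := hb.ii u K h4 h1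
    omega)
  have c4 : Commute x (gl pi j (-(K : ℤ))) := glc hx j _ (by
    rintro h1 u ⟨h2, h3, h4⟩
    have := hb.ji _ u h1 h4
    have := hb.ij u _ h4 h1
    omega)
  have c5 : Commute y (gl pi i K) := glc hy i _ (by
    rintro h1 u ⟨h2, h3, h4⟩
    have := hb.ji u _ h4 h1
    have := hb.ij _ u h1 h4
    omega)
  have c8 : Commute y (gl pi j (-(K : ℤ))) := glc hy j _ (by
    rintro h1 u ⟨h2, h3, h4⟩
    have := hb.jj _ u h1 h4
    omega)
  have he : gl pi i (K : ℤ) ∈ ap lin (far K 0) := gl_mem fun _ => by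
    show (K : ℤ) - 0 ≤ |(K : ℤ)|
    rw [abs_of_nonneg hK]
    omega
  have hf : gl pi j (-(K : ℤ)) ∈ ap lin (far K 0) := gl_mem fun _ => by
    show (K : ℤ) - 0 ≤ |-(K : ℤ)|
    rw [abs_neg, abs_of_nonneg hK]
    omega
  have ha : ∀ {a b : Art lin}, a ∈ ap lin (far K 0) → b ∈ ap lin (far K 0) → ∀ n : ℕ,
      alt a b n ∈ ap lin (far K 0) := by
    intro a b ha hb n
    induction n generalizing a b with
    | zero => exact one_mem _
    | succ n ih => exact mul_mem ha (ih hb ha)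
  have hc : ∀ {a b c : Art lin}, Commute a b → Commute a c → ∀ n : ℕ, Commute a (alt b c n) := by
    intro a b c h1 h2 n
    induction n generalizing b c with
    | zero => exact Commute.one_right _
    | succ n ih => exact h1.mul_right (ih h2 h1)
  rw [hi, hj, alt_mul c1 c4 c5 c8, alt_mul c8 c5 c4 c1, ← hxy]
  have k1 : Commute (alt x y 3) (alt (gl pi i (K : ℤ)) (gl pi j (-(K : ℤ))) 3) :=
    (hc (hc c1.symm c5.symm 3).symm (hc c4.symm c8.symm 3).symm 3)
  have k2 : alt x y 3 * alt (gl pi i (K : ℤ)) (gl pi j (-(K : ℤ))) 3 *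
      (alt x y 3 * alt (gl pi j (-(K : ℤ))) (gl pi i (K : ℤ)) 3)⁻¹ =
      alt (gl pi i (K : ℤ)) (gl pi j (-(K : ℤ))) 3 *
        (alt (gl pi j (-(K : ℤ))) (gl pi i (K : ℤ)) 3)⁻¹ := by
    have k3 : Commute (alt x y 3) (alt (gl pi j (-(K : ℤ))) (gl pi i (K : ℤ)) 3) :=
      (hc (hc c4.symm c8.symm 3).symm (hc c1.symm c5.symm 3).symm 3)
    rw [k1.eq, k3.eq, mul_inv_rev, mul_assoc, mul_inv_cancel_left]
  rw [k2]
  exact mul_mem (ha he hf 3) (inv_mem (ha hf he 3))

theorem rel_cir (h : Cdat M N pi) (i j : B) : ∃ d : ℤ, ∀ K : ℕ, psi pi K (alt (FreeGroup.of i) (FreeGroup.of j) (M i j) *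
      (alt (FreeGroup.of j) (FreeGroup.of i) (M i j))⁻¹) ∈ ap lin (far K d) := by
  obtain ⟨s, rfl⟩ := h.surj i
  obtain ⟨t, rfl⟩ := h.surj j
  refine ⟨0, fun K => ?_⟩
  rw [psi_rel]
  rcases h.lab s t with h1 | ⟨h1, h2⟩ | ⟨h1, h2⟩ | ⟨h0, h1, h2, h3⟩
  · rw [h1, mul_inv_cancel]
    exact one_mem _
  · rw [h2, h1]
    exact rel3' h.ne (nb_mk h s) K
  · rw [h2, h1]
    have h3 := inv_mem (rel3' h.ne (nb_mk h t) K)
    rwa [mul_inv_rev, inv_inv] at h3
  · rw [h3]
    have h4 : Commute (cw pi K (pi s)) (cw pi K (pi t)) := by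
      refine comm_far ?_ (cw_mem pi K (pi s)) (cw_mem pi K (pi t))
      rintro u ⟨_, hu⟩ v ⟨_, hv⟩
      have e1 : u ≠ v := by
        rintro rfl
        exact h0 (hu.symm.trans hv)
      have e2 : u + 1 ≠ v := by
        rintro rfl
        exact h1 (hv.symm.trans (nx' h hu))
      have e3 : v + 1 ≠ u := by
        rintro rfl
        exact h2 (hu.symm.trans (nx' h hv))
      omega
    have h5 : alt (cw pi K (pi s)) (cw pi K (pi t)) 2 = alt (cw pi K (pi t)) (cw pi K (pi s)) 2 := by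
      show cw pi K (pi s) * (cw pi K (pi t) * 1) = cw pi K (pi t) * (cw pi K (pi s) * 1)
      rw [mul_one, mul_one, h4.eq]
    rw [h5, mul_inv_cancel]
    exact one_mem _

end Pool.Agent.H9.AT
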