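import Pool.Agent.H9.AT.Dsc
import Pool.Agent.H9.AT.Rel

/-!
# [H9 AT LFT] Lifting finitely many elements to the line (45 min)

Choose words `w i : FreeGroup B` with `mkA M (w i) = e i` (`exists_wd` with `K = univ`, `ap_univ`). `E i = psi pi K (w i)` for one large `K`. For `i`, `j`, `s` with `(e i)⁻¹ * e j ∈ ap M {pi s}ᶜ`: `exists_wd`: `v ∈ wd {pi s}ᶜ`, `mkA M v = (e i)⁻¹ * e j`;
`psi_ker` (with `Cdat.ne`, `rel_cir`) for `(w i)⁻¹ * w j * v⁻¹`: `d`. For all `K` with `K - d > |s|`, `K - d > |s + N|`, `K ≥ |s|`, `K ≥ |s + N|`: `(E i)⁻¹ * E j = k * psi pi K v`, `k ∈ ap lin (far K d) ≤ ap lin (out N s) ≤ ap lin {s}ᶜ`,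
`psi pi K v ∈ ap lin {u | pi u ≠ pi s} ≤ ap lin {s}ᶜ` (`psi_mem`), and by `blk` `psi pi K v = ι y * z`, so `(E i)⁻¹ * E j = ι y * (k * z)` (`k` commutes with `ι y`). So for every `i, j, s` the property
`Q i j s K := (e i)⁻¹ * e j ∈ ap M {pi s}ᶜ → (E i)⁻¹ * E j ∈ ap lin {s}ᶜ ∧ ∃ y z, β y = (e i)⁻¹ * e j ∧ z ∈ ap lin (out N s) ∧ (E i)⁻¹ * E j = ι y * z` (with `ι` from `exists_inc`, `β` from `exists_beta`, chosen for every `s`) holds for all large `K`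
(`Filter.Eventually` atTop); finitely many `i`, `j` and `s ∈ Finset.Icc (-R) R`: `Filter.eventually_all`, `Filter.eventually_all_finset`; take one `K` (`Filter.Eventually.exists`). UP is the first part, DOWN is `descent`.
-/

set_option autoImplicit false

namespace Pool.Agent.H9.AT

open Pool.H8.CDW Pool.Agent.H52.PAG Pool.Agent.H75.INF Pool.Agent.H54.TF Pool.Agent.H54.AF

variable {B : Type} {M : CoxeterMatrix B} {N : ℤ} {pi : ℤ → B}

private theorem far_out {N s d : ℤ} {K : ℕ} (h1 : |s| < (K : ℤ) - d) (h2 : |s + N| < (K : ℤ) - d) : far K d ⊆ out N s := by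
  intro t ht
  have h3 : (K : ℤ) - d ≤ |t| := ht
  by_contra h4
  have h5 : ¬ (t < s ∨ s + N < t) := h4
  push Not at h5
  have h6 := abs_lt.1 h1
  have h7 := abs_lt.1 h2
  have h8 : |t| < (K : ℤ) - d := abs_lt.2 ⟨by omega, by omega⟩
  omega

private theorem pair_lift (h : Cdat M N pi) (w₁ w₂ : FreeGroup B) (s : ℤ) : ∀ᶠ K : ℕ in Filter.atTop,
    ((mkA M w₁)⁻¹ * mkA M w₂ ∈ ap M ({pi s}ᶜ : Set B) → (psi pi K w₁)⁻¹ * psi pi K w₂ ∈ ap lin ({s}ᶜ : Set ℤ)) ∧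
    ((mkA M w₁)⁻¹ * mkA M w₂ ∈ ap M ({pi s}ᶜ : Set B) → ∀ (ι : Art (resM lin (Set.Ioo s (s + N))) →* Art lin)
      (β : Art (resM lin (Set.Ioo s (s + N))) →* Art M), (∀ k, ι (gen _ k) = gen lin k.1) →
      (∀ k, β (gen _ k) = gen M (pi k.1)) → ∃ y, β y = (mkA M w₁)⁻¹ * mkA M w₂ ∧ ∃ z ∈ ap lin (out N s),
        (psi pi K w₁)⁻¹ * psi pi K w₂ = ι y * z) := by
  by_cases hm : (mkA M w₁)⁻¹ * mkA M w₂ ∈ ap M ({pi s}ᶜ : Set B)
  · obtain ⟨v, hv, ev⟩ := exists_wd hm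
    have e1 : mkA M (w₁⁻¹ * w₂ * v⁻¹) = 1 := by
      rw [map_mul, map_mul, map_inv, map_inv, ev, mul_inv_cancel]
    obtain ⟨d, hd⟩ := psi_ker h.ne (fun i j _ => rel_cir h i j) e1
    have hN := h.hN
    filter_upwards [Filter.eventually_ge_atTop (|s| + |s + N| + |d| + 1).toNat] with K hK
    have hK' : |s| + |s + N| + |d| + 1 ≤ (K : ℤ) := by omega
    have a1 := abs_nonneg s
    have a2 := abs_nonneg (s + N)
    have a3 := le_abs_self d
    have a4 := abs_nonneg d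
    have hfo : far K d ⊆ out N s := far_out (by omega) (by omega)
    have hk := ap_mono hfo (hd K)
    have hos : out N s ⊆ ({s}ᶜ : Set ℤ) := by
      intro t ht h1
      have h2 : t = s := h1
      have h3 : t < s ∨ s + N < t := ht
      omega
    have e2 : (psi pi K w₁)⁻¹ * psi pi K w₂ = psi pi K (w₁⁻¹ * w₂ * v⁻¹) * psi pi K v := by
      rw [map_mul, map_mul, map_inv, map_inv, inv_mul_cancel_right]
    refine ⟨fun _ => ?_, fun _ ι β hι hβ => ?_⟩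
    · rw [e2]
      refine mul_mem (ap_mono hos hk) (ap_mono ?_ (psi_mem K hv))
      intro t ht h1
      have h2 : t = s := h1
      have h3 : pi t ≠ pi s := ht
      exact h3 (by rw [h2])
    · obtain ⟨y, hy, z, hz, e3⟩ := blk h s (K := K) (by omega) (by omega) hι hβ hv
      refine ⟨y, hy.trans ev, psi pi K (w₁⁻¹ * w₂ * v⁻¹) * z, mul_mem hk hz, ?_⟩
      have hc : Commute (ι y) (psi pi K (w₁⁻¹ * w₂ * v⁻¹)) :=
        comm_far (X := Set.Ioo s (s + N)) (Y := out N s) (by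
          rintro i ⟨h1, h2⟩ j (h3 | h3) <;> omega) (iota_mem hι y) hk
      rw [e2, e3, ← mul_assoc, ← mul_assoc, hc.eq]
  · exact Filter.Eventually.of_forall fun K => ⟨fun h1 => absurd h1 hm, fun h1 => absurd h1 hm⟩

theorem line_lift (h : Cdat M N pi) (m : ℕ) (e : Fin m → Art M) (R : ℤ) : ∃ E : Fin m → Art lin,
    (∀ i j s, |s| ≤ R → (e i)⁻¹ * e j ∈ ap M ({pi s}ᶜ) → (E i)⁻¹ * E j ∈ ap lin ({s}ᶜ)) ∧
    (∀ i j s a b, |s| ≤ R → |s + N| ≤ R → (e i)⁻¹ * e j ∈ ap M ({pi s}ᶜ) → a ∈ Set.Ioo s (s + N) → b ∈ Set.Ioo s (s + N) →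
      Mt lin ({a}ᶜ) ({b}ᶜ) (E i) (E j) →
      ∃ g, (e i)⁻¹ * g ∈ ap M ({pi a}ᶜ) ∧ (e i)⁻¹ * g ∈ ap M ({pi s}ᶜ) ∧ (e j)⁻¹ * g ∈ ap M ({pi b}ᶜ)) := by
  have hw : ∀ i, ∃ w : FreeGroup B, mkA M w = e i := fun i => by
    obtain ⟨w, -, hw⟩ := exists_wd (M := M) (K := Set.univ) (x := e i) (by rw [ap_univ]; exact Subgroup.mem_top _)
    exact ⟨w, hw⟩
  choose w hw using hw
  have key : ∀ᶠ K : ℕ in Filter.atTop, ∀ i j, ∀ s ∈ Finset.Icc (-R) R,
      ((mkA M (w i))⁻¹ * mkA M (w j) ∈ ap M ({pi s}ᶜ : Set B) → (psi pi K (w i))⁻¹ * psi pi K (w j) ∈ ap lin ({s}ᶜ : Set ℤ)) ∧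
      ((mkA M (w i))⁻¹ * mkA M (w j) ∈ ap M ({pi s}ᶜ : Set B) → ∀ (ι : Art (resM lin (Set.Ioo s (s + N))) →* Art lin)
        (β : Art (resM lin (Set.Ioo s (s + N))) →* Art M), (∀ k, ι (gen _ k) = gen lin k.1) →
        (∀ k, β (gen _ k) = gen M (pi k.1)) → ∃ y, β y = (mkA M (w i))⁻¹ * mkA M (w j) ∧ ∃ z ∈ ap lin (out N s),
          (psi pi K (w i))⁻¹ * psi pi K (w j) = ι y * z) := by
    rw [Filter.eventually_all]
    intro i
    rw [Filter.eventually_all]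
    intro j
    rw [Filter.eventually_all_finset]
    intro s _
    exact pair_lift h (w i) (w j) s
  obtain ⟨K, hK⟩ := key.exists
  refine ⟨fun i => psi pi K (w i), fun i j s hs hij => ?_, fun i j s a b hs _ hij ha hb hJ => ?_⟩
  · refine (hK i j s (Finset.mem_Icc.2 (abs_le.1 hs))).1 ?_
    rw [hw, hw]
    exact hij
  · obtain ⟨ι, hinj, hι, -⟩ := exists_inc (M := lin) (Set.Ioo s (s + N))
    obtain ⟨β, hβ⟩ := exists_beta h s
    obtain ⟨y, hy, z, hz, e3⟩ := (hK i j s (Finset.mem_Icc.2 (abs_le.1 hs))).2 (by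
      rw [hw, hw]
      exact hij) ι β hι hβ
    rw [hw, hw] at hy
    exact descent h hι hinj hβ ha hb hy hz e3 hJ

end Pool.Agent.H9.AT
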