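import Pool.Agent.H9.AT.LinF
import Pool.Agent.H54.TF.Trf
import Pool.Agent.H54.TF.Pt
import Pool.Agent.H54.BS.Sp
import Pool.Agent.H2.UF.Six

/-!
# [H9 AT LING] Four-cycles on the line (30 min)

`gs_lin`: `x, x' ∈ ap (univ \ {s})`, `y, y' ∈ ap (univ \ {s + 1})`, `x y x' y' = 1`: `exists_Icc` for the four elements, `ap_Icc_mono`: one `R` with `|s| + 1 ≤ R`; `S = Icc (-R) R`. `ap_inter`: `x ∈ ap (S \ {s})` and so on. `GS lin S s (s + 1)`: `gs_res` of `H54/TF/Trf.lean` for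
`T = univ` (`resM lin S`) and `gs_fin` of `H2/UF/Six.lean` (`fin_lin`, label `3`: `lin_succ`). So `x` or `y` is in `ap (S \ {s, s + 1}) ≤ ap (univ \ {s, s + 1})`.
`fc_lin`: `pt lin_ne` and `gc_of_gs` (`H54/TF/Pt.lean`). `fc_lin'`: the same for the pair `s + 1`, `s` (`gs_symm`).
`sep_lin`: `T = {i | i < t}`. `tr_lin`: `sep_j` of `H54/BS/Sp.lean` or directly: `ap ({s₂}ᶜ) = ap {i < s₂} * ap {i > s₂}` (`dec_far`): common elements `p` of the first two cosets, `q` of the last two: `p⁻¹ q ∈ ap {s₂}ᶜ`, `p⁻¹ q = u v`, `u ∈ ap {i < s₂}`, `v ∈ ap {i > s₂}`,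
`u v = v u`: `p v = q u⁻¹` is a common element of the first and the third one.
-/

set_option autoImplicit false

namespace Pool.Agent.H9.AT

open Pool.H8.CDW Pool.Agent.H52.PAG Pool.Agent.H75.INF Pool.Agent.H54.TF Pool.Agent.H54.AF Pool.Agent.H54.BS Pool.Agent.H2.UF

theorem gs_lin (s : ℤ) : GS lin Set.univ s (s + 1) := by
  intro x hx x' hx' y hy y' hy' he
  obtain ⟨R₁, h1⟩ := exists_Icc x
  obtain ⟨R₂, h2⟩ := exists_Icc x'
  obtain ⟨R₃, h3⟩ := exists_Icc y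
  obtain ⟨R₄, h4⟩ := exists_Icc y'
  obtain ⟨R, hR1, hR2, hR3, hR4, hR5, hR6, hR7⟩ : ∃ R : ℤ, R₁ ≤ R ∧ R₂ ≤ R ∧ R₃ ≤ R ∧ R₄ ≤ R ∧ -R ≤ s ∧
      s + 1 ≤ R ∧ 0 ≤ R := by
    refine ⟨|R₁| + |R₂| + |R₃| + |R₄| + |s| + 1, ?_⟩
    have a1 := le_abs_self R₁
    have a2 := le_abs_self R₂
    have a3 := le_abs_self R₃
    have a4 := le_abs_self R₄
    have a5 := le_abs_self s
    have a6 := neg_abs_le s
    have b1 := abs_nonneg R₁
    have b2 := abs_nonneg R₂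
    have b3 := abs_nonneg R₃
    have b4 := abs_nonneg R₄
    have b5 := abs_nonneg s
    refine ⟨?_, ?_, ?_, ?_, ?_, ?_, ?_⟩ <;> omega
  obtain ⟨S, hS⟩ : ∃ S : Set ℤ, S = Set.Icc (-R) R := ⟨_, rfl⟩
  have hfin : Finite (resM lin S).Group := by
    rw [hS]
    exact fin_lin _ _
  have hsS : s ∈ S := by
    rw [hS]
    exact ⟨hR5, by omega⟩
  have hsS' : s + 1 ∈ S := by
    rw [hS]
    exact ⟨by omega, hR6⟩
  have hG : GS lin S s (s + 1) := by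
    have h5 : GS (resM lin S) Set.univ ⟨s, hsS⟩ ⟨s + 1, hsS'⟩ := by
      refine gs_fin (resM lin S) ?_
      have h6 : resM lin S ⟨s, hsS⟩ ⟨s + 1, hsS'⟩ = lin s (s + 1) := rfl
      rw [h6, lin_succ]
    rw [gs_res, Set.image_univ, Subtype.range_coe] at h5
    exact h5
  have key : ∀ {z : Art lin} {R' : ℤ} {t : ℤ}, R' ≤ R → z ∈ ap lin (Set.Icc (-R') R') →
      z ∈ ap lin (Set.univ \ {t}) → z ∈ ap lin (S \ {t}) := by
    intro z R' t hR' hz hz'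
    have h5 : z ∈ ap lin S ⊓ ap lin (Set.univ \ {t}) := ⟨by rw [hS]; exact ap_Icc_mono hR' hz, hz'⟩
    rw [ap_inter] at h5
    have h6 : S ∩ (Set.univ \ {t}) ⊆ S \ {t} := fun i hi => ⟨hi.1, hi.2.2⟩
    exact ap_mono h6 h5
  rcases hG x (key hR1 h1 hx) x' (key hR2 h2 hx') y (key hR3 h3 hy) y' (key hR4 h4 hy') he with h5 | h5
  · have h6 : S \ {s, s + 1} ⊆ Set.univ \ {s, s + 1} := fun i hi => ⟨trivial, hi.2⟩
    exact Or.inl (ap_mono h6 h5)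
  · have h6 : S \ {s, s + 1} ⊆ Set.univ \ {s, s + 1} := fun i hi => ⟨trivial, hi.2⟩
    exact Or.inr (ap_mono h6 h5)

theorem fc_lin (s : ℤ) : FC lin Set.univ s (s + 1) := pt lin_ne (by rw [lin_succ]) (gc_of_gs (gs_lin s))

theorem fc_lin' (s : ℤ) : FC lin Set.univ (s + 1) s := pt lin_ne (by rw [lin_pred]) (gc_of_gs (gs_symm (gs_lin s)))

theorem sep_lin {t s₁ s₂ : ℤ} (h1 : s₁ < t) (h2 : t < s₂) : Sep lin t s₁ s₂ := by
  refine ⟨{i | i < t}, ?_, h1, ?_, by omega, ?_⟩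
  · intro h
    exact lt_irrefl t h
  · intro h
    have h3 : s₂ < t := h
    omega
  · intro i hi j hj hjt
    have hi' : i < t := hi
    have hj' : ¬ j < t := hj
    exact lin_far (Or.inl (by omega))

theorem tr_lin {s₁ s₂ s₃ : ℤ} (h1 : s₁ < s₂) (h2 : s₂ < s₃) {x y z : Art lin} (hxy : Mt lin ({s₁}ᶜ) ({s₂}ᶜ) x y)
    (hyz : Mt lin ({s₂}ᶜ) ({s₃}ᶜ) y z) : Mt lin ({s₁}ᶜ) ({s₃}ᶜ) x z := by
  have h := sep_j (sep_lin h1 h2) (x := (s₁, x)) (y := (s₂, y)) (z := (s₃, z)) rfl rfl rfl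
    (by
      unfold Pool.Agent.H52.VK.Jv
      rw [← Set.compl_eq_univ_sdiff, ← Set.compl_eq_univ_sdiff]
      exact hxy)
    (by
      unfold Pool.Agent.H52.VK.Jv
      rw [← Set.compl_eq_univ_sdiff, ← Set.compl_eq_univ_sdiff]
      exact hyz)
  unfold Pool.Agent.H52.VK.Jv at h
  rw [← Set.compl_eq_univ_sdiff, ← Set.compl_eq_univ_sdiff] at h
  exact h

end Pool.Agent.H9.AT
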