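import Pool.Agent.H9.AT.Ab
import Pool.Agent.H9.AT.Lft
import Pool.Agent.H9.AT.LinG
import Pool.Agent.H54.BS.Wts
import Pool.Agent.H54.AF.Blk

/-!
# [H9 AT CIR] POLY for circuits

`sy_of_chn`: a closed chain of a circuit gives a system in the sense of `Ab.lean`. `polF_cdat`: POLY. `pcir`: the interface for `H54/AF`.
-/

set_option autoImplicit false

namespace Pool.Agent.H9.AT

open Pool.H8.CDW Pool.Agent.H52.PAG Pool.Agent.H75.INF Pool.Agent.H54.TF Pool.Agent.H52.VK Pool.Agent.H54.BS Pool.Agent.H54.AF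

variable {B : Type} {M : CoxeterMatrix B} {N : ℤ} {pi : ℤ → B}

open Classical in
/-- a common element -/
private noncomputable def cel (M : CoxeterMatrix B) (x y : B × Art M) : Art M :=
  if h : Jv M Set.univ x y then h.choose else 1

private theorem cel_spec {x y : B × Art M} (h : Jv M Set.univ x y) :
    x.2⁻¹ * cel M x y ∈ ap M ({x.1}ᶜ) ∧ y.2⁻¹ * cel M x y ∈ ap M ({y.1}ᶜ) := by
  have h1 := h.choose_spec
  have e : cel M x y = h.choose := dif_pos h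
  rw [e]
  rw [Set.compl_eq_univ_sdiff, Set.compl_eq_univ_sdiff]
  exact h1

private theorem fc_lin_compl {s t u v : ℤ} (hst : t = s + 1 ∨ s = t + 1) {g₁ g₂ g₃ g₄ : Art lin}
    (h1 : Mt lin ({s}ᶜ) ({t}ᶜ) g₁ g₂) (h2 : Mt lin ({t}ᶜ) ({u}ᶜ) g₂ g₃) (h3 : Mt lin ({u}ᶜ) ({v}ᶜ) g₃ g₄)
    (h4 : Mt lin ({v}ᶜ) ({s}ᶜ) g₄ g₁) : Mt lin ({s}ᶜ) ({u}ᶜ) g₁ g₃ ∨ Mt lin ({t}ᶜ) ({v}ᶜ) g₂ g₄ := by
  have e : ∀ x : ℤ, ({x}ᶜ : Set ℤ) = Set.univ \ {x} := fun x => Set.compl_eq_univ_sdiff _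
  rcases hst with rfl | rfl
  · have h := fc_lin s ({u}ᶜ) ({v}ᶜ) g₁ g₂ g₃ g₄ (Set.subset_univ _) (Set.subset_univ _)
    rw [← e, ← e] at h
    exact h h1 h2 h3 h4
  · have h := fc_lin' t ({u}ᶜ) ({v}ᶜ) g₁ g₂ g₃ g₄ (Set.subset_univ _) (Set.subset_univ _)
    rw [← e, ← e] at h
    exact h h1 h2 h3 h4

theorem sy_of_chn (h : Cdat M N pi) {n : ℕ} (hn : 0 < n) {f : ℕ → B × Art M} (hf : Chn M Set.univ n f) :
    ∃ R, Sy n N (fun i s => pi s = (f i).1) R (fun i => Jv M Set.univ (f i) (f (i + 2))) := by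
  have hN := h.hN
  obtain ⟨e, he⟩ : ∃ e : ℕ → Art M, ∀ i, e i = cel M (f i) (f (i + 1)) := ⟨_, fun _ => rfl⟩
  have hper : Function.Periodic e n := by
    intro i
    rw [he, he, show i + n + 1 = i + 1 + n by ring, hf.per, hf.per]
  have e1 : ∀ i, (f i).2⁻¹ * e i ∈ ap M ({(f i).1}ᶜ) := fun i => by
    rw [he]
    exact (cel_spec (hf.adj i)).1
  have e2 : ∀ i, (f (i + 1)).2⁻¹ * e i ∈ ap M ({(f (i + 1)).1}ᶜ) := fun i => by
    rw [he]
    exact (cel_spec (hf.adj i)).2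
  have e12 : ∀ i, (e i)⁻¹ * e (i + 1) ∈ ap M ({(f (i + 1)).1}ᶜ) := fun i => by
    have := mul_mem (inv_mem (e2 i)) (e1 (i + 1))
    have e' : ((f (i + 1)).2⁻¹ * e i)⁻¹ * ((f (i + 1)).2⁻¹ * e (i + 1)) = (e i)⁻¹ * e (i + 1) := by group
    rwa [e'] at this
  have e21 : ∀ i, (e (i + 1))⁻¹ * e i ∈ ap M ({(f (i + 1)).1}ᶜ) := fun i => by
    have := inv_mem (e12 i)
    have e' : ((e i)⁻¹ * e (i + 1))⁻¹ = (e (i + 1))⁻¹ * e i := by group
    rwa [e'] at this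
  obtain ⟨E', up', down'⟩ := line_lift h n (fun j => e j) (10 * N)
  obtain ⟨E, hE⟩ : ∃ E : ℕ → Art lin, ∀ i, E i = E' ⟨i % n, Nat.mod_lt i hn⟩ := ⟨_, fun _ => rfl⟩
  have hmod : ∀ i, e (i % n) = e i := fun i => hper.map_mod_nat i
  have up : ∀ i j s, |s| ≤ 10 * N → (e i)⁻¹ * e j ∈ ap M ({pi s}ᶜ) → (E i)⁻¹ * E j ∈ ap lin ({s}ᶜ) := by
    intro i j s hs h1
    rw [hE, hE]
    refine up' _ _ s hs ?_
    show (e (i % n))⁻¹ * e (j % n) ∈ _
    rw [hmod, hmod]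
    exact h1
  have down : ∀ i j s a b, |s| ≤ 10 * N → |s + N| ≤ 10 * N → (e i)⁻¹ * e j ∈ ap M ({pi s}ᶜ) → a ∈ Set.Ioo s (s + N) →
      b ∈ Set.Ioo s (s + N) → Mt lin ({a}ᶜ) ({b}ᶜ) (E i) (E j) →
      ∃ g, (e i)⁻¹ * g ∈ ap M ({pi a}ᶜ) ∧ (e i)⁻¹ * g ∈ ap M ({pi s}ᶜ) ∧ (e j)⁻¹ * g ∈ ap M ({pi b}ᶜ) := by
    intro i j s a b h1 h2 h3 h4 h5 h6
    rw [hE, hE] at h6
    have h7 := down' ⟨i % n, Nat.mod_lt i hn⟩ ⟨j % n, Nat.mod_lt j hn⟩ s a b h1 h2 (by
      show (e (i % n))⁻¹ * e (j % n) ∈ _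
      rw [hmod, hmod]
      exact h3) h4 h5 h6
    obtain ⟨g, g1, g2, g3⟩ := h7
    change (e (i % n))⁻¹ * g ∈ _ at g1
    change (e (i % n))⁻¹ * g ∈ _ at g2
    change (e (j % n))⁻¹ * g ∈ _ at g3
    rw [hmod] at g1 g2 g3
    exact ⟨g, g1, g2, g3⟩
  refine ⟨fun i s j t => Mt lin ({s}ᶜ) ({t}ᶜ) (E i) (E j), ?_⟩
  refine
    { hN := hN
      symm := fun i s j t h1 => h1.symm
      adj := fun i s t h1 h2 h3 h4 => ⟨E i, by rw [inv_mul_cancel]; exact one_mem _, up _ _ t h4 (by rw [h2]; exact e21 i)⟩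
      per := fun i s j t => ?_
      perT := fun i s => by show (pi s = (f (i + n)).1) ↔ _; rw [hf.per]
      sep := fun i s j t k u h1 h2 h3 h4 => tr_lin h1 h2 h3 h4
      fc := fun i s j t k u l v h1 h2 h3 h4 h5 => fc_lin_compl h1 h2 h3 h4 h5
      down := fun i s a b h1 h2 h3 h4 h5 h6 h7 h8 h9 h10 => ?_
      shift := fun i s h1 => ⟨(h.per s).trans h1, ?_⟩
      lift := fun i c => h.lift _ c
      ne := fun i s h1 h2 => hf.ne i (h1.symm.trans h2) }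
  · have e3 : E (i + n) = E i := by
      rw [hE, hE]
      congr 2
      exact Nat.add_mod_right i n
    show Mt lin _ _ (E (i + n)) _ ↔ _
    rw [e3]
  · -- descent
    have hb : |b| ≤ 10 * N := by
      rw [abs_le] at h2 h3 ⊢
      constructor <;> omega
    have h11 : Mt lin ({a}ᶜ) ({b}ᶜ) (E i) (E (i + 1)) := by
      obtain ⟨x, hx1, hx2⟩ := h10
      refine ⟨x, hx1, ?_⟩
      have h12 : (E (i + 1))⁻¹ * E (i + 2) ∈ ap lin ({b}ᶜ) := up _ _ b hb (by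
        have h13 : pi b = (f (i + 1 + 1)).1 := h9
        rw [h13]
        exact e12 (i + 1))
      have e' : (E (i + 1))⁻¹ * x = ((E (i + 1))⁻¹ * E (i + 2)) * ((E (i + 2))⁻¹ * x) := by group
      rw [e']
      exact mul_mem h12 hx2
    have h1' : pi s = (f (i + 1)).1 := h1
    obtain ⟨g, g1, g2, g3⟩ := down i (i + 1) s a b h2 h3 (by rw [h1']; exact e12 i) ⟨h4, h5⟩ ⟨h6, h7⟩ h11
    refine ⟨g, ?_, ?_⟩
    · rw [← Set.compl_eq_univ_sdiff]
      have h8' : pi a = (f i).1 := h8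
      rw [h8'] at g1
      have e' : (f i).2⁻¹ * g = ((f i).2⁻¹ * e i) * ((e i)⁻¹ * g) := by group
      rw [e']
      exact mul_mem (e1 i) g1
    · rw [← Set.compl_eq_univ_sdiff]
      have h9' : pi b = (f (i + 2)).1 := h9
      rw [h9'] at g3
      have e' : (f (i + 2)).2⁻¹ * g = ((f (i + 2)).2⁻¹ * e (i + 1)) * ((e (i + 1))⁻¹ * g) := by group
      rw [e']
      exact mul_mem (e2 (i + 1)) g3
  · show pi (s - N) = (f i).1
    have h2 := h.per (s - N)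
    rw [sub_add_cancel] at h2
    rw [← h2]
    exact h1

/-- the steps -/
private theorem step (h : Cdat M N pi) {a b : B} (hab : M a b = 3) :
    (∀ s, pi s = a → pi (s + 1) = b) ∨ ∀ s, pi s = a → pi (s - 1) = b := by
  obtain ⟨s₀, rfl⟩ := h.surj a
  obtain ⟨t₀, rfl⟩ := h.surj b
  rcases h.lab s₀ t₀ with h1 | ⟨h1, -⟩ | ⟨h1, -⟩ | ⟨-, -, -, h1⟩
  · rw [h1, M.diagonal] at hab
    omega
  · left
    intro s hs
    rw [h1, h.eq]
    have h2 := (h.eq s s₀).1 hs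
    rwa [show s₀ + 1 - (s + 1) = s₀ - s by ring]
  · right
    intro s hs
    rw [h.eq]
    have h2 := (h.eq s (t₀ + 1)).1 (hs.trans h1)
    rwa [show t₀ - (s - 1) = t₀ + 1 - s by ring]
  · omega

/-- shifted chains -/
private theorem chn_shift {n : ℕ} {f : ℕ → B × Art M} (hf : Chn M Set.univ n f) (k : ℕ) : Chn M Set.univ n (fun i => f (k + i)) where
  per := fun i => by
    show f (k + (i + n)) = f (k + i)
    rw [← add_assoc, hf.per]
  mem := fun i => hf.mem _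
  ne := fun i => hf.ne _
  adj := fun i => hf.adj _

private theorem deg_shift {f : ℕ → B × Art M} (k : ℕ) (h : ∃ i, Jv M Set.univ (f (k + i)) (f (k + (i + 2)))) : Deg M Set.univ f := by
  obtain ⟨i, hi⟩ := h
  exact ⟨k + i, hi⟩

theorem lab_cdat (h : Cdat M N pi) {a b : B} (hab : a ≠ b) : M a b = 2 ∨ M a b = 3 := by
  obtain ⟨s₀, rfl⟩ := h.surj a
  obtain ⟨t₀, rfl⟩ := h.surj b
  rcases h.lab s₀ t₀ with h1 | ⟨-, h1⟩ | ⟨-, h1⟩ | ⟨-, -, -, h1⟩
  · exact absurd h1 hab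
  · exact Or.inr h1
  · exact Or.inr h1
  · exact Or.inl h1

private theorem five_lab {L : ℕ → ℕ} {W : ℕ → ℝ} (hL : ∀ j, L (j + 5) = L j)
    (hw : ∀ i, (L i = 2 ∧ W i = 1 / 2) ∨ (L i = 3 ∧ W i = 1 / 3)) (hs : ∑ i ∈ Finset.range 5, W i < 2) :
    ∃ k, ∀ i, i < 4 → L (k + i) = 3 := by
  simp only [Finset.sum_range_succ, Finset.sum_range_zero] at hs
  have l5 : L 5 = L 0 := hL 0
  have l6 : L 6 = L 1 := hL 1
  have l7 : L 7 = L 2 := hL 2
  have l8 : L 8 = L 3 := hL 3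
  rcases hw 0 with ⟨a0, b0⟩ | ⟨a0, b0⟩ <;> rcases hw 1 with ⟨a1, b1⟩ | ⟨a1, b1⟩ <;>
    rcases hw 2 with ⟨a2, b2⟩ | ⟨a2, b2⟩ <;> rcases hw 3 with ⟨a3, b3⟩ | ⟨a3, b3⟩ <;>
    rcases hw 4 with ⟨a4, b4⟩ | ⟨a4, b4⟩ <;>
    first
    | (exfalso; rw [b0, b1, b2, b3, b4] at hs; norm_num at hs; done)
    | (refine ⟨0, ?_⟩; intro i hi; interval_cases i <;> first | exact a0 | exact a1 | exact a2 | exact a3)
    | (refine ⟨1, ?_⟩; intro i hi; interval_cases i <;> first | exact a1 | exact a2 | exact a3 | exact a4)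
    | (refine ⟨2, ?_⟩; intro i hi; interval_cases i <;> first | exact a2 | exact a3 | exact a4 | exact l5.trans a0)
    | (refine ⟨3, ?_⟩; intro i hi; interval_cases i <;> first | exact a3 | exact a4 | exact l5.trans a0 | exact l6.trans a1)
    | (refine ⟨4, ?_⟩; intro i hi; interval_cases i <;> first | exact a4 | exact l5.trans a0 | exact l6.trans a1 | exact l7.trans a2)

/-- POLY for circuits -/
theorem polF_cdat (h : Cdat M N pi) : PolF M Set.univ := by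
  intro n f hn hf hs
  have hw : ∀ i, (M (f i).1 (f (i + 1)).1 = 2 ∧ wt M (f i).1 (f (i + 1)).1 = 1 / 2) ∨
      (M (f i).1 (f (i + 1)).1 = 3 ∧ wt M (f i).1 (f (i + 1)).1 = 1 / 3) := by
    intro i
    rcases lab_cdat h (hf.ne i) with h1 | h1
    · exact Or.inl ⟨h1, wt_two h1⟩
    · exact Or.inr ⟨h1, wt_three h1⟩
  have hn6 : n < 6 := by
    by_contra hcon
    have h1 : ∑ i ∈ Finset.range n, (1 / 3 : ℝ) ≤ fsum M n f := by
      refine Finset.sum_le_sum fun i _ => ?_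
      rcases hw i with ⟨-, h2⟩ | ⟨-, h2⟩ <;> rw [h2] <;> norm_num
    rw [Finset.sum_const, Finset.card_range, nsmul_eq_mul] at h1
    have h2 : (6 : ℝ) ≤ n := by exact_mod_cast (not_lt.1 hcon)
    linarith
  have hstep : ∀ k, M (f k).1 (f (k + 1)).1 = 3 → (∀ s, pi s = (f k).1 → pi (s + 1) = (f (k + 1)).1) ∨
      ∀ s, pi s = (f k).1 → pi (s - 1) = (f (k + 1)).1 := fun k hk => step h hk
  obtain rfl | rfl : n = 4 ∨ n = 5 := by omega
  · obtain ⟨k, hk⟩ : ∃ k, M (f k).1 (f (k + 1)).1 = 3 := by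
      by_contra hcon
      push Not at hcon
      have h1 : ∀ i, wt M (f i).1 (f (i + 1)).1 = 1 / 2 := fun i => by
        rcases hw i with ⟨-, h2⟩ | ⟨h2, -⟩
        · exact h2
        · exact absurd h2 (hcon i)
      unfold fsum at hs
      rw [Finset.sum_congr rfl fun i _ => h1 i] at hs
      norm_num at hs
    obtain ⟨R, hR⟩ := sy_of_chn h (by norm_num) (chn_shift hf k)
    exact deg_shift k (hR.four' (hstep k hk))
  · obtain ⟨k, hk⟩ : ∃ k, ∀ i, i < 4 → M (f (k + i)).1 (f (k + i + 1)).1 = 3 := by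
      refine five_lab (L := fun j => M (f j).1 (f (j + 1)).1) (W := fun j => wt M (f j).1 (f (j + 1)).1) ?_ hw hs
      intro j
      show M (f (j + 5)).1 (f (j + 5 + 1)).1 = M (f j).1 (f (j + 1)).1
      rw [show j + 5 + 1 = j + 1 + 5 by ring, hf.per, hf.per]
    obtain ⟨R, hR⟩ := sy_of_chn h (by norm_num) (chn_shift hf k)
    exact deg_shift k (hR.five fun i hi => hstep (k + i) (hk i hi))

/-- the data of a circuit -/
theorem cdat_of_cir (h : Cir M) : ∃ N pi, Cdat M N pi := by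
  obtain ⟨n, hn, e, he⟩ := h
  have hpi : ∀ s : ℤ, e (e.symm (s : ZMod n)) = s := fun s => e.apply_symm_apply _
  have heq : ∀ s t : ℤ, e.symm (s : ZMod n) = e.symm (t : ZMod n) ↔ (n : ℤ) ∣ t - s := by
    intro s t
    rw [e.symm.injective.eq_iff]
    exact ZMod.intCast_eq_intCast_iff_dvd_sub s t n
  have hne : ∀ s : ℤ, e.symm (s : ZMod n) ≠ e.symm ((s + 1 : ℤ) : ZMod n) := by
    intro s h1
    rw [heq, show s + 1 - s = 1 by ring] at h1
    have h2 := Int.le_of_dvd one_pos h1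
    omega
  refine ⟨n, fun s => e.symm (s : ZMod n), ?_⟩
  refine
    { hN := by exact_mod_cast hn
      surj := fun b => ?_
      eq := heq
      three := fun s => ?_
      two := fun s t h1 h2 h3 => ?_ }
  · haveI : NeZero n := ⟨by omega⟩
    refine ⟨((e b).val : ℤ), ?_⟩
    show e.symm (((e b).val : ℤ) : ZMod n) = b
    rw [Int.cast_natCast, ZMod.natCast_zmod_val, e.symm_apply_apply]
  · show M (e.symm (s : ZMod n)) (e.symm ((s + 1 : ℤ) : ZMod n)) = 3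
    rw [he _ _ (hne s), if_pos]
    left
    rw [hpi, hpi]
    push_cast
    rfl
  · show M (e.symm (s : ZMod n)) (e.symm (t : ZMod n)) = 2
    rw [he _ _ (fun h4 => h1 ((heq s t).1 h4)), if_neg]
    rw [hpi, hpi]
    rintro (h4 | h4)
    · apply h2
      have h5 : ((s + 1 : ℤ) : ZMod n) = (t : ZMod n) := by
        rw [h4]
        push_cast
        rfl
      have h6 := (ZMod.intCast_eq_intCast_iff_dvd_sub (s + 1) t n).1 h5
      rwa [show t - (s + 1) = t - s - 1 by ring] at h6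
    · apply h3
      have h5 : (s : ZMod n) = ((t + 1 : ℤ) : ZMod n) := by
        rw [h4]
        push_cast
        rfl
      have h6 := (ZMod.intCast_eq_intCast_iff_dvd_sub s (t + 1) n).1 h5
      rwa [show t + 1 - s = t - s + 1 by ring] at h6

theorem pcir : PCir := by
  intro B M h
  obtain ⟨N, pi, h1⟩ := cdat_of_cir h
  exact polF_cdat h1

end Pool.Agent.H9.AT
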