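import Pool.Agent.H9.AT.Psi

/-!
# [H9 AT DEFS] Circuits

`mkA M : FreeGroup B →* Art M`. `Cdat M N pi`: `M` is a circuit with `N ≥ 4` nodes and labels `3`, `pi : ℤ → B` goes around. `out N b`: the integers outside of `[b, b + N]`.
-/

set_option autoImplicit false

namespace Pool.Agent.H9.AT

open Pool.H8.CDW Pool.Agent.H52.PAG Pool.Agent.H75.INF Pool.Agent.H54.TF Pool.Agent.H54.AF

variable {B : Type}

/-- the projection to the Artin group -/
def mkA (M : CoxeterMatrix B) : FreeGroup B →* Art M := FreeGroup.lift (gen M)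

theorem mkA_of (M : CoxeterMatrix B) (i : B) : mkA M (FreeGroup.of i) = gen M i := FreeGroup.lift_apply_of

/-- circuits with labels `3` -/
structure Cdat (M : CoxeterMatrix B) (N : ℤ) (pi : ℤ → B) : Prop where
  hN : 4 ≤ N
  surj : ∀ b, ∃ s, pi s = b
  eq : ∀ s t, pi s = pi t ↔ N ∣ t - s
  three : ∀ s, M (pi s) (pi (s + 1)) = 3
  two : ∀ s t, ¬ N ∣ t - s → ¬ N ∣ t - s - 1 → ¬ N ∣ t - s + 1 → M (pi s) (pi t) = 2

/-- the outside of a block -/
def out (N b : ℤ) : Set ℤ := {s | s < b ∨ b + N < s}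

variable {M : CoxeterMatrix B} {N : ℤ} {pi : ℤ → B}

theorem Cdat.ne (h : Cdat M N pi) (s : ℤ) : pi s ≠ pi (s + 1) := by
  intro e
  have h1 := (h.eq s (s + 1)).1 e
  have h2 := h.hN
  rw [show s + 1 - s = 1 by ring] at h1
  have h3 := Int.le_of_dvd one_pos h1
  omega

theorem Cdat.per (h : Cdat M N pi) (s : ℤ) : pi (s + N) = pi s :=
  ((h.eq s (s + N)).2 (by rw [show s + N - s = N by ring])).symm

/-- equality of types in a short interval -/
theorem Cdat.inj (h : Cdat M N pi) {s t : ℤ} (e : pi s = pi t) (h1 : s < t + N) (h2 : t < s + N) : s = t := by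
  have h3 := (h.eq s t).1 e
  obtain ⟨k, hk⟩ := h3
  have h4 := h.hN
  have h5 : k = 0 := by
    by_contra h6
    rcases lt_or_gt_of_ne h6 with h7 | h7
    · have h8 : N * k ≤ N * (-1) := mul_le_mul_of_nonneg_left (by omega) (by omega)
      omega
    · have h8 : N * 1 ≤ N * k := mul_le_mul_of_nonneg_left (by omega) (by omega)
      omega
  rw [h5, mul_zero] at hk
  omega

/-- a lift in a half open interval -/
theorem Cdat.lift (h : Cdat M N pi) (b : B) (c : ℤ) : ∃ s, pi s = b ∧ c ≤ s ∧ s < c + N := by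
  obtain ⟨t, rfl⟩ := h.surj b
  have h1 := h.hN
  refine ⟨c + (t - c) % N, ?_, ?_, ?_⟩
  · rw [h.eq]
    refine ⟨(t - c) / N, ?_⟩
    have h2 := Int.emod_add_mul_ediv (t - c) N
    linarith
  · have := Int.emod_nonneg (t - c) (show N ≠ 0 by omega)
    omega
  · have := Int.emod_lt_of_pos (t - c) (show 0 < N by omega)
    omega

/-- all labels are `1`, `2`, `3` and the neighbours are known -/
theorem Cdat.lab (h : Cdat M N pi) (s t : ℤ) :
    (pi s = pi t) ∨ (pi t = pi (s + 1) ∧ M (pi s) (pi t) = 3) ∨ (pi s = pi (t + 1) ∧ M (pi s) (pi t) = 3) ∨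
      (pi s ≠ pi t ∧ pi t ≠ pi (s + 1) ∧ pi s ≠ pi (t + 1) ∧ M (pi s) (pi t) = 2) := by
  by_cases h0 : pi s = pi t
  · exact Or.inl h0
  right
  by_cases h1 : pi t = pi (s + 1)
  · left
    refine ⟨h1, ?_⟩
    rw [h1]
    exact h.three s
  right
  by_cases h2 : pi s = pi (t + 1)
  · left
    refine ⟨h2, ?_⟩
    rw [h2, M.symmetric]
    exact h.three t
  right
  refine ⟨h0, h1, h2, h.two s t (fun h3 => h0 ((h.eq s t).2 h3)) (fun h3 => h1 ?_) (fun h3 => h2 ?_)⟩
  · symm
    rw [h.eq]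
    rwa [show t - (s + 1) = t - s - 1 by ring]
  · rw [h.eq]
    rwa [show t + 1 - s = t - s + 1 by ring]

end Pool.Agent.H9.AT
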