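import Mathlib

/-!
# [H9 AT AB] Closed chains of length four and five of a circuit, abstractly

`T i s`: the integer `s` lies over the type of the vertex `i`; `R i s j t`: the lifts of the vertices `i`, `j` at `s`, `t` are adjacent or equal; `D i`: the vertices `i`, `i + 2` are adjacent or equal. `Sy.four`, `Sy.five`: think note 1325, section 4.
-/

set_option autoImplicit false

namespace Pool.Agent.H9.AT

/-- the rules -/
structure Sy (n : ℕ) (N : ℤ) (T : ℕ → ℤ → Prop) (R : ℕ → ℤ → ℕ → ℤ → Prop) (D : ℕ → Prop) : Prop where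
  hN : 4 ≤ N
  symm : ∀ i s j t, R i s j t → R j t i s
  adj : ∀ i s t, T i s → T (i + 1) t → |s| ≤ 10 * N → |t| ≤ 10 * N → R i s (i + 1) t
  per : ∀ i s j t, R (i + n) s j t ↔ R i s j t
  perT : ∀ i s, T (i + n) s ↔ T i s
  sep : ∀ i s j t k u, s < t → t < u → R i s j t → R j t k u → R i s k u
  fc : ∀ i s j t k u l v, (t = s + 1 ∨ s = t + 1) → R i s j t → R j t k u → R k u l v → R l v i s → R i s k u ∨ R j t l v
  down : ∀ i s a b, T (i + 1) s → |s| ≤ 10 * N → |s + N| ≤ 10 * N → s < a → a < s + N → s < b → b < s + N → T i a → T (i + 2) b →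
    R i a (i + 2) b → D i
  shift : ∀ i s, T i s → T i (s + N) ∧ T i (s - N)
  lift : ∀ i c, ∃ s, T i s ∧ c ≤ s ∧ s < c + N
  ne : ∀ i s, T i s → ¬ T (i + 1) s

namespace Sy

variable {n : ℕ} {N : ℤ} {T : ℕ → ℤ → Prop} {R : ℕ → ℤ → ℕ → ℤ → Prop} {D : ℕ → Prop}

theorem perR (h : Sy n N T R D) (i : ℕ) (s : ℤ) (j : ℕ) (t : ℤ) : R i s (j + n) t ↔ R i s j t :=
  ⟨fun h1 => h.symm _ _ _ _ ((h.per _ _ _ _).1 (h.symm _ _ _ _ h1)), fun h1 => h.symm _ _ _ _ ((h.per _ _ _ _).2 (h.symm _ _ _ _ h1))⟩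

/-- the reflected system -/
theorem neg (h : Sy n N T R D) : Sy n N (fun i s => T i (-s)) (fun i s j t => R i (-s) j (-t)) D where
  hN := h.hN
  symm := fun i s j t h1 => h.symm _ _ _ _ h1
  adj := fun i s t h1 h2 h3 h4 => h.adj i _ _ h1 h2 (by rwa [abs_neg]) (by rwa [abs_neg])
  per := fun i s j t => h.per i _ j _
  perT := fun i s => h.perT i _
  sep := fun i s j t k u h1 h2 h3 h4 => h.symm _ _ _ _
    (h.sep k (-u) j (-t) i (-s) (by omega) (by omega) (h.symm _ _ _ _ h4) (h.symm _ _ _ _ h3))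
  fc := fun i s j t k u l v h1 h2 h3 h4 h5 => h.fc i _ j _ k _ l _ (by omega) h2 h3 h4 h5
  down := fun i s a b h1 h2 h3 h4 h5 h6 h7 h8 h9 h10 => by
    have h11 := (h.shift _ _ h1).2
    refine h.down i (-s - N) (-a) (-b) h11 ?_ ?_ (by omega) (by omega) (by omega) (by omega) h8 h9 h10
    · rw [show -s - N = -(s + N) by ring, abs_neg]
      exact h3
    · rw [show -s - N + N = -s by ring, abs_neg]
      exact h2
  shift := fun i s h1 => by
    obtain ⟨h2, h3⟩ := h.shift i _ h1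
    refine ⟨?_, ?_⟩
    · show T i (-(s + N))
      rwa [show -(s + N) = -s - N by ring]
    · show T i (-(s - N))
      rwa [show -(s - N) = -s + N by ring]
  lift := fun i c => by
    obtain ⟨s, h1, h2, h3⟩ := h.lift i (-c - N + 1)
    refine ⟨-s, ?_, by omega, by omega⟩
    show T i (- -s)
    rwa [neg_neg]
  ne := fun i s h1 h2 => h.ne i _ h1 h2

/-- closed chains of length four with a pair of label `3` -/
theorem four (h : Sy 4 N T R D) (h0 : ∀ s, T 0 s → T 1 (s + 1)) : ∃ i, D i := by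
  have hN := h.hN
  obtain ⟨s, hs, hs1, hs2⟩ := h.lift 0 0
  have t1 := h0 s hs
  obtain ⟨u, hu, hu1, hu2⟩ := h.lift 2 (s + 2 - N)
  obtain ⟨v, hv, hv1, hv2⟩ := h.lift 3 s
  have hu3 : u ≠ s + 1 := by
    rintro rfl
    exact h.ne 1 _ t1 hu
  have hv3 : v ≠ s := by
    rintro rfl
    exact h.ne 3 _ hv ((h.perT 0 _).2 hs)
  have b : ∀ x : ℤ, -(2 * N) ≤ x → x ≤ 3 * N → |x| ≤ 10 * N := fun x h1 h2 => by
    rw [abs_le]
    constructor <;> omega
  have r01 := h.adj 0 s (s + 1) hs t1 (b _ (by omega) (by omega)) (b _ (by omega) (by omega))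
  have r12 := h.adj 1 (s + 1) u t1 hu (b _ (by omega) (by omega)) (b _ (by omega) (by omega))
  have r23 := h.adj 2 u v hu hv (b _ (by omega) (by omega)) (b _ (by omega) (by omega))
  have r30 := (h.perR 3 v 0 s).1 (h.adj 3 v s hv ((h.perT 0 _).2 hs) (b _ (by omega) (by omega)) (b _ (by omega) (by omega)))
  rcases h.fc 0 s 1 (s + 1) 2 u 3 v (Or.inl rfl) r01 r12 r23 r30 with h1 | h1
  · refine ⟨0, h.down 0 (s + 1 - N) s u (h.shift _ _ t1).2 (b _ (by omega) (by omega)) (b _ (by omega) (by omega))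
      (by omega) (by omega) (by omega) (by omega) hs hu h1⟩
  · refine ⟨3, h.down 3 s v (s + 1) ((h.perT 0 _).2 hs) (b _ (by omega) (by omega)) (b _ (by omega) (by omega))
      (by omega) (by omega) (by omega) (by omega) hv ((h.perT 1 _).2 t1) ((h.perR 3 v 1 _).2 (h.symm _ _ _ _ h1))⟩

/-- closed chains of length four with a pair of label `3`, both directions -/
theorem four' (h : Sy 4 N T R D) (h0 : (∀ s, T 0 s → T 1 (s + 1)) ∨ ∀ s, T 0 s → T 1 (s - 1)) : ∃ i, D i := by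
  rcases h0 with h0 | h0
  · exact h.four h0
  · refine h.neg.four fun s hs => ?_
    show T 1 (-(s + 1))
    rw [show -(s + 1) = -s - 1 by ring]
    exact h0 _ hs

private theorem bd (hN : 4 ≤ N) (x : ℤ) (h1 : -(2 * N) ≤ x) (h2 : x ≤ 3 * N) : |x| ≤ 10 * N := by
  rw [abs_le]
  constructor <;> omega

/-- heights `0, 1, 2, 3, 4` -/
private theorem p4 (h : Sy 5 N T R D) {s : ℤ} (hs1 : 0 ≤ s) (hs2 : s < N) (t0 : T 0 s) (t1 : T 1 (s + 1)) (t2 : T 2 (s + 2))
    (t3 : T 3 (s + 3)) (t4 : T 4 (s + 4)) : ∃ i, D i := by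
  have hN := h.hN
  have hN5 : N ≠ 4 := by
    intro e
    refine h.ne 4 _ t4 ?_
    have h1 := (h.shift _ _ ((h.perT 0 _).2 t0)).1
    rwa [e] at h1
  have r23 := h.adj 2 _ _ t2 t3 (bd hN _ (by omega) (by omega)) (bd hN _ (by omega) (by omega))
  have r34 := h.adj 3 _ _ t3 t4 (bd hN _ (by omega) (by omega)) (bd hN _ (by omega) (by omega))
  have r40 := (h.perR 4 _ 0 _).1 (h.adj 4 _ (s + N) t4 (h.shift _ _ ((h.perT 0 _).2 t0)).1 (bd hN _ (by omega) (by omega))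
    (bd hN _ (by omega) (by omega)))
  have r24 := h.sep _ _ _ _ _ _ (by omega) (by omega) r23 r34
  have r20 := h.sep _ _ _ _ _ _ (by omega) (by omega) r24 r40
  exact ⟨0, h.down 0 (s + 1) (s + N) (s + 2) t1 (bd hN _ (by omega) (by omega)) (bd hN _ (by omega) (by omega))
    (by omega) (by omega) (by omega) (by omega) (h.shift _ _ t0).1 t2 (h.symm _ _ _ _ r20)⟩

/-- heights `0, 1, 2, 3, 2` -/
private theorem pa (h : Sy 5 N T R D) {s : ℤ} (hs1 : 0 ≤ s) (hs2 : s < N) (t0 : T 0 s) (t1 : T 1 (s + 1)) (t2 : T 2 (s + 2))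
    (t3 : T 3 (s + 3)) (t4 : T 4 (s + 2)) : ∃ i, D i := by
  have hN := h.hN
  have t0' := (h.shift _ _ t0).1
  have r12 := h.adj 1 _ _ t1 t2 (bd hN _ (by omega) (by omega)) (bd hN _ (by omega) (by omega))
  have r23 := h.adj 2 _ _ t2 t3 (bd hN _ (by omega) (by omega)) (bd hN _ (by omega) (by omega))
  have r34 := h.adj 3 _ _ t3 t4 (bd hN _ (by omega) (by omega)) (bd hN _ (by omega) (by omega))
  have r40 := (h.perR 4 _ 0 _).1 (h.adj 4 _ (s + N) t4 ((h.perT 0 _).2 t0') (bd hN _ (by omega) (by omega))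
    (bd hN _ (by omega) (by omega)))
  have r01 := h.adj 0 _ _ t0' t1 (bd hN _ (by omega) (by omega)) (bd hN _ (by omega) (by omega))
  have r13 := h.sep _ _ _ _ _ _ (by omega) (by omega) r12 r23
  rcases h.fc 4 (s + 2) 3 (s + 3) 1 (s + 1) 0 (s + N) (Or.inl (by ring)) (h.symm _ _ _ _ r34) (h.symm _ _ _ _ r13)
    (h.symm _ _ _ _ r01) (h.symm _ _ _ _ r40) with h1 | h1
  · exact ⟨4, h.down 4 s (s + 2) (s + 1) ((h.perT 0 _).2 t0) (bd hN _ (by omega) (by omega)) (bd hN _ (by omega) (by omega))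
      (by omega) (by omega) (by omega) (by omega) t4 ((h.perT 1 _).2 t1) ((h.perR 4 _ 1 _).2 h1)⟩
  · exact ⟨3, h.down 3 (s + 2) (s + 3) (s + N) t4 (bd hN _ (by omega) (by omega)) (bd hN _ (by omega) (by omega))
      (by omega) (by omega) (by omega) (by omega) t3 ((h.perT 0 _).2 t0') ((h.perR 3 _ 0 _).2 h1)⟩

/-- heights `0, 1, 2, 1, 2` -/
private theorem pb (h : Sy 5 N T R D) {s : ℤ} (hs1 : 0 ≤ s) (hs2 : s < N) (t0 : T 0 s) (t1 : T 1 (s + 1)) (t2 : T 2 (s + 2))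
    (t3 : T 3 (s + 1)) (t4 : T 4 (s + 2)) : ∃ i, D i := by
  have hN := h.hN
  have r01 := h.adj 0 _ _ t0 t1 (bd hN _ (by omega) (by omega)) (bd hN _ (by omega) (by omega))
  have r12 := h.adj 1 _ _ t1 t2 (bd hN _ (by omega) (by omega)) (bd hN _ (by omega) (by omega))
  have r23 := h.adj 2 _ _ t2 t3 (bd hN _ (by omega) (by omega)) (bd hN _ (by omega) (by omega))
  have r34 := h.adj 3 _ _ t3 t4 (bd hN _ (by omega) (by omega)) (bd hN _ (by omega) (by omega))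
  have r40 := (h.perR 4 _ 0 _).1 (h.adj 4 _ s t4 ((h.perT 0 _).2 t0) (bd hN _ (by omega) (by omega))
    (bd hN _ (by omega) (by omega)))
  have r02 := h.sep _ _ _ _ _ _ (by omega) (by omega) r01 r12
  rcases h.fc 3 (s + 1) 2 (s + 2) 0 s 4 (s + 2) (Or.inl (by ring)) (h.symm _ _ _ _ r23) (h.symm _ _ _ _ r02)
    (h.symm _ _ _ _ r40) (h.symm _ _ _ _ r34) with h1 | h1
  · exact ⟨3, h.down 3 (s + 2 - N) (s + 1) s (h.shift _ _ t4).2 (bd hN _ (by omega) (by omega)) (bd hN _ (by omega) (by omega))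
      (by omega) (by omega) (by omega) (by omega) t3 ((h.perT 0 _).2 t0) ((h.perR 3 _ 0 _).2 h1)⟩
  · exact ⟨2, h.down 2 (s + 1) (s + 2) (s + 2) t3 (bd hN _ (by omega) (by omega)) (bd hN _ (by omega) (by omega))
      (by omega) (by omega) (by omega) (by omega) t2 t4 h1⟩

/-- heights `0, 1, 0, 1, 2` -/
private theorem pc (h : Sy 5 N T R D) {s : ℤ} (hs1 : 0 ≤ s) (hs2 : s < N) (t0 : T 0 s) (t1 : T 1 (s + 1)) (t2 : T 2 s)
    (t3 : T 3 (s + 1)) (t4 : T 4 (s + 2)) : ∃ i, D i := by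
  have hN := h.hN
  have r01 := h.adj 0 _ _ t0 t1 (bd hN _ (by omega) (by omega)) (bd hN _ (by omega) (by omega))
  have r12 := h.adj 1 _ _ t1 t2 (bd hN _ (by omega) (by omega)) (bd hN _ (by omega) (by omega))
  have r23 := h.adj 2 _ _ t2 t3 (bd hN _ (by omega) (by omega)) (bd hN _ (by omega) (by omega))
  have r34 := h.adj 3 _ _ t3 t4 (bd hN _ (by omega) (by omega)) (bd hN _ (by omega) (by omega))
  have r40 := (h.perR 4 _ 0 _).1 (h.adj 4 _ s t4 ((h.perT 0 _).2 t0) (bd hN _ (by omega) (by omega))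
    (bd hN _ (by omega) (by omega)))
  have r24 := h.sep _ _ _ _ _ _ (by omega) (by omega) r23 r34
  rcases h.fc 0 s 1 (s + 1) 2 s 4 (s + 2) (Or.inl (by ring)) r01 r12 r24 r40 with h1 | h1
  · exact ⟨0, h.down 0 (s + 1 - N) s s (h.shift _ _ t1).2 (bd hN _ (by omega) (by omega)) (bd hN _ (by omega) (by omega))
      (by omega) (by omega) (by omega) (by omega) t0 t2 h1⟩
  · exact ⟨4, h.down 4 s (s + 2) (s + 1) ((h.perT 0 _).2 t0) (bd hN _ (by omega) (by omega)) (bd hN _ (by omega) (by omega))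
      (by omega) (by omega) (by omega) (by omega) t4 ((h.perT 1 _).2 t1) ((h.perR 4 _ 1 _).2 (h.symm _ _ _ _ h1))⟩

/-- heights `0, -1, 0, 1, 2` -/
private theorem pd (h : Sy 5 N T R D) {s : ℤ} (hs1 : 0 ≤ s) (hs2 : s < N) (t0 : T 0 s) (t1 : T 1 (s - 1)) (t2 : T 2 s)
    (t3 : T 3 (s + 1)) (t4 : T 4 (s + 2)) : ∃ i, D i := by
  have hN := h.hN
  have t4' := (h.shift _ _ t4).2
  have r01 := h.adj 0 _ _ t0 t1 (bd hN _ (by omega) (by omega)) (bd hN _ (by omega) (by omega))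
  have r12 := h.adj 1 _ _ t1 t2 (bd hN _ (by omega) (by omega)) (bd hN _ (by omega) (by omega))
  have r23 := h.adj 2 _ _ t2 t3 (bd hN _ (by omega) (by omega)) (bd hN _ (by omega) (by omega))
  have r34 := h.adj 3 _ _ t3 t4' (bd hN _ (by omega) (by omega)) (bd hN _ (by omega) (by omega))
  have r40 := (h.perR 4 _ 0 _).1 (h.adj 4 _ s t4' ((h.perT 0 _).2 t0) (bd hN _ (by omega) (by omega))
    (bd hN _ (by omega) (by omega)))
  have r13 := h.sep _ _ _ _ _ _ (by omega) (by omega) r12 r23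
  rcases h.fc 1 (s - 1) 0 s 4 (s + 2 - N) 3 (s + 1) (Or.inl (by ring)) (h.symm _ _ _ _ r01) (h.symm _ _ _ _ r40)
    (h.symm _ _ _ _ r34) (h.symm _ _ _ _ r13) with h1 | h1
  · exact ⟨4, h.down 4 (s - N) (s + 2 - N) (s - 1) ((h.perT 0 _).2 (h.shift _ _ t0).2) (bd hN _ (by omega) (by omega))
      (bd hN _ (by omega) (by omega)) (by omega) (by omega) (by omega) (by omega) t4' ((h.perT 1 _).2 t1)
      ((h.perR 4 _ 1 _).2 (h.symm _ _ _ _ h1))⟩
  · exact ⟨3, h.down 3 (s + 2 - N) (s + 1) s t4' (bd hN _ (by omega) (by omega)) (bd hN _ (by omega) (by omega))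
      (by omega) (by omega) (by omega) (by omega) t3 ((h.perT 0 _).2 t0) ((h.perR 3 _ 0 _).2 (h.symm _ _ _ _ h1))⟩

/-- a step up or down -/
private def St (T : ℕ → ℤ → Prop) (i : ℕ) (e : ℤ) : Prop := ∀ s, T i s → T (i + 1) (s + e)

private theorem five_pos (h : Sy 5 N T R D) {e₀ e₁ e₂ e₃ : ℤ} (h0 : St T 0 e₀) (h1 : St T 1 e₁) (h2 : St T 2 e₂) (h3 : St T 3 e₃)
    (k0 : e₀ = 1 ∨ e₀ = -1) (k1 : e₁ = 1 ∨ e₁ = -1) (k2 : e₂ = 1 ∨ e₂ = -1) (k3 : e₃ = 1 ∨ e₃ = -1)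
    (hsum : 0 ≤ e₀ + e₁ + e₂ + e₃) : ∃ i, D i := by
  obtain ⟨s, t0, hs1, hs2⟩ := h.lift 0 0
  rw [zero_add] at hs2
  have t1 := h0 _ t0
  have t2 := h1 _ t1
  have t3 := h2 _ t2
  have t4 := h3 _ t3
  norm_num at t1 t2 t3 t4
  by_cases hz : e₀ + e₁ + e₂ + e₃ = 0
  · exfalso
    refine h.ne 4 _ t4 ?_
    rw [show s + e₀ + e₁ + e₂ + e₃ = s by omega]
    exact (h.perT 0 _).2 t0
  rcases k0 with rfl | rfl <;> rcases k1 with rfl | rfl <;> rcases k2 with rfl | rfl <;> rcases k3 with rfl | rfl <;>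
    first
    | (exfalso; omega)
    | skip
  · rw [show s + 1 + 1 = s + 2 by ring] at t2 t3 t4
    rw [show s + 2 + 1 = s + 3 by ring] at t3 t4
    rw [show s + 3 + 1 = s + 4 by ring] at t4
    exact p4 h hs1 hs2 t0 t1 t2 t3 t4
  · rw [show s + 1 + 1 = s + 2 by ring] at t2 t3 t4
    rw [show s + 2 + 1 = s + 3 by ring] at t3 t4
    rw [show s + 3 + -1 = s + 2 by ring] at t4
    exact pa h hs1 hs2 t0 t1 t2 t3 t4
  · rw [show s + 1 + 1 = s + 2 by ring] at t2 t3 t4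
    rw [show s + 2 + -1 = s + 1 by ring] at t3 t4
    rw [show s + 1 + 1 = s + 2 by ring] at t4
    exact pb h hs1 hs2 t0 t1 t2 t3 t4
  · rw [show s + 1 + -1 = s by ring] at t2 t3 t4
    rw [show s + 1 + 1 = s + 2 by ring] at t4
    exact pc h hs1 hs2 t0 t1 t2 t3 t4
  · rw [show s + -1 + 1 = s by ring] at t2 t3 t4
    rw [show s + 1 + 1 = s + 2 by ring] at t4
    exact pd h hs1 hs2 t0 (by rwa [show s - 1 = s + -1 by ring]) t2 t3 t4

/-- closed chains of length five with four pairs of label `3` -/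
theorem five (h : Sy 5 N T R D)
    (h0 : ∀ i, i < 4 → (∀ s, T i s → T (i + 1) (s + 1)) ∨ ∀ s, T i s → T (i + 1) (s - 1)) : ∃ i, D i := by
  have key : ∀ i, i < 4 → ∃ e : ℤ, (e = 1 ∨ e = -1) ∧ St T i e := by
    intro i hi
    rcases h0 i hi with h1 | h1
    · exact ⟨1, Or.inl rfl, h1⟩
    · refine ⟨-1, Or.inr rfl, fun s hs => ?_⟩
      rw [← sub_eq_add_neg]
      exact h1 s hs
  obtain ⟨e₀, k0, s0⟩ := key 0 (by omega)
  obtain ⟨e₁, k1, s1⟩ := key 1 (by omega)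
  obtain ⟨e₂, k2, s2⟩ := key 2 (by omega)
  obtain ⟨e₃, k3, s3⟩ := key 3 (by omega)
  have hneg : ∀ i e, St T i e → St (fun i s => T i (-s)) i (-e) := by
    intro i e h1 s hs
    show T (i + 1) (-(s + -e))
    rw [show -(s + -e) = -s + e by ring]
    exact h1 _ hs
  rcases le_total 0 (e₀ + e₁ + e₂ + e₃) with hs | hs
  · exact five_pos h s0 s1 s2 s3 k0 k1 k2 k3 hs
  · exact five_pos h.neg (hneg _ _ s0) (hneg _ _ s1) (hneg _ _ s2) (hneg _ _ s3) (by omega) (by omega) (by omega) (by omega)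
      (by omega)

end Sy

end Pool.Agent.H9.AT
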