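import Pool.Agent.H9.AT.Ker
import Pool.Agent.H75.INF.Vdl

/-!
# [H9 AT BLK] The copy of a word in a block (45 min)

`exists_beta`: `lift` (`H52/PAG/Defs.lean`) with `f k = gen M (pi k.1)`: the relation is `gen_rel` for `M`, since `lin k l = M (pi k) (pi l)` for `k`, `l` in `Ioo b (b + N)`: `k = l`: `1 = 1`; `l = k + 1`: `three`; `k = l + 1`: `three` and `M.symmetric`;
otherwise `2 ≤ |k - l| ≤ N - 2` and `two` (`Cdat.lab`, `Cdat.inj`).
`blk`: closure induction on `w ∈ wd {pi b}ᶜ`. Letter `i ≠ pi b`: `Cdat.lift` for `i` and `b`: `m` with `pi m = i`, `b ≤ m < b + N`, `m ≠ b`, so `m ∈ Ioo b (b + N)`, `|m| ≤ K`; `cw_pick`: `cw pi K i = gen lin m * t`; the other elements of type `i` are in `out N b`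
(`Cdat.inj`: the only one in `[b, b + N]` is `m`; `b` and `b + N` have type `pi b ≠ i`): `y = gen _ ⟨m, _⟩`. Product: `ι y₁ z₁ ι y₂ z₂ = ι (y₁ y₂) (z₁ z₂)`, `z₁` commutes with `ι y₂` (`ι y₂ ∈ ap lin (Ioo b (b + N))`: `iota_mem`; `comm_far`). Inverse: the same.
`iota_mem`: `art_induction`. `iota_ap`: `ι x ∈ ap lin (Subtype.val '' L) ↔ x ∈ ap (resM ..) L` for injective `ι` (as `map_ap` in `H54/TF/Trf.lean`: `MonoidHom.map_closure`). `beta_ap`: `x ∈ ap (resM ..) L`, `pi k ∈ L'` for all `k ∈ L`: `β x ∈ ap M L'` (`ap_induction`).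
-/

set_option autoImplicit false

namespace Pool.Agent.H9.AT

open Pool.H8.CDW Pool.Agent.H52.PAG Pool.Agent.H75.INF Pool.Agent.H54.TF Pool.Agent.H54.AF

variable {B : Type} {M : CoxeterMatrix B} {N : ℤ} {pi : ℤ → B}

theorem exists_beta (h : Cdat M N pi) (b : ℤ) : ∃ β : Art (resM lin (Set.Ioo b (b + N))) →* Art M,
    ∀ k, β (gen _ k) = gen M (pi k.1) := by
  have hmat : ∀ i j : Set.Ioo b (b + N), lin i.1 j.1 = M (pi i.1) (pi j.1) := by
    rintro ⟨i, hi1, hi2⟩ ⟨j, hj1, hj2⟩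
    change lin i j = M (pi i) (pi j)
    have hN := h.hN
    have hdv : ∀ x : ℤ, -N < x → x < N → x ≠ 0 → ¬ N ∣ x := fun x h1 h2 h3 h4 =>
      h3 (Int.eq_zero_of_abs_lt_dvd h4 (abs_lt.2 ⟨h1, h2⟩))
    by_cases h1 : i = j
    · subst h1
      rw [lin_apply, if_pos rfl, M.diagonal]
    · by_cases h2 : j = i + 1
      · subst h2
        rw [lin_succ, h.three]
      · by_cases h3 : i = j + 1
        · subst h3
          rw [lin_pred, M.symmetric, h.three]
        · rw [lin_far (by omega), h.two i j (hdv _ (by omega) (by omega) (by omega))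
            (hdv _ (by omega) (by omega) (by omega)) (hdv _ (by omega) (by omega) (by omega))]
  refine ⟨lift (M := resM lin (Set.Ioo b (b + N))) (fun k => gen M (pi k.1)) (fun i j hij => ?_),
    fun k => lift_gen _ _ k⟩
  rw [resM_apply, hmat] at hij ⊢
  exact gen_rel hij

theorem iota_mem {K : Set ℤ} {ι : Art (resM lin K) →* Art lin} (hι : ∀ k, ι (gen _ k) = gen lin k.1) (x : Art (resM lin K)) :
    ι x ∈ ap lin K := by
  refine art_induction (P := fun x => ι x ∈ ap lin K) ?_ ?_ ?_ x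
  · rw [map_one]
    exact one_mem _
  · intro x k hx
    rw [map_mul, hι]
    exact mul_mem hx (gen_mem_ap k.2)
  · intro x k hx
    rw [map_mul, map_inv, hι]
    exact mul_mem hx (inv_mem (gen_mem_ap k.2))

theorem iota_ap {K : Set ℤ} {ι : Art (resM lin K) →* Art lin} (hι : ∀ k, ι (gen _ k) = gen lin k.1)
    (hinj : Function.Injective ι) {L : Set K} {x : Art (resM lin K)} : ι x ∈ ap lin (Subtype.val '' L) ↔ x ∈ ap (resM lin K) L := by
  have h1 : (ap (resM lin K) L).map ι = ap lin (Subtype.val '' L) := by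
    unfold ap
    rw [MonoidHom.map_closure]
    congr 1
    ext x
    constructor
    · rintro ⟨_, ⟨k, hk, rfl⟩, rfl⟩
      exact ⟨k.1, ⟨k, hk, rfl⟩, (hι k).symm⟩
    · rintro ⟨_, ⟨k, hk, rfl⟩, rfl⟩
      exact ⟨_, ⟨k, hk, rfl⟩, hι k⟩
  rw [← h1]
  exact Subgroup.mem_map_iff_mem hinj

theorem beta_ap {K : Set ℤ} {β : Art (resM lin K) →* Art M} (hβ : ∀ k, β (gen _ k) = gen M (pi k.1)) {L : Set K} {L' : Set B}
    (hL : ∀ k ∈ L, pi (k : ℤ) ∈ L') {x : Art (resM lin K)} (hx : x ∈ ap (resM lin K) L) : β x ∈ ap M L' := by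
  refine ap_induction (P := fun x => β x ∈ ap M L') ?_ ?_ ?_ hx
  · rw [map_one]
    exact one_mem _
  · intro x _ k hk h1
    rw [map_mul, hβ]
    exact mul_mem h1 (gen_mem_ap (hL k hk))
  · intro x _ k hk h1
    rw [map_mul, map_inv, hβ]
    exact mul_mem h1 (inv_mem (gen_mem_ap (hL k hk)))

theorem blk (h : Cdat M N pi) (b : ℤ) {K : ℕ} (hb : |b| ≤ K) (hb' : |b + N| ≤ K)
    {ι : Art (resM lin (Set.Ioo b (b + N))) →* Art lin} (hι : ∀ k, ι (gen _ k) = gen lin k.1)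
    {β : Art (resM lin (Set.Ioo b (b + N))) →* Art M} (hβ : ∀ k, β (gen _ k) = gen M (pi k.1)) {w : FreeGroup B}
    (hw : w ∈ wd ({pi b}ᶜ : Set B)) : ∃ y, β y = mkA M w ∧ ∃ z ∈ ap lin (out N b), psi pi K w = ι y * z := by
  have hcom : ∀ y, ∀ z ∈ ap lin (out N b), Commute (ι y) z := fun y z hz =>
    comm_far (X := Set.Ioo b (b + N)) (Y := out N b) (by
      rintro i ⟨h1, h2⟩ j (h3 | h3) <;> omega) (iota_mem hι y) hz
  have hb1 := abs_le.1 hb
  have hb2 := abs_le.1 hb'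
  unfold wd at hw
  induction hw using Subgroup.closure_induction with
  | mem w hw =>
    obtain ⟨i, hi, rfl⟩ := hw
    have hi' : i ≠ pi b := hi
    obtain ⟨m, hm, h1, h2⟩ := h.lift i b
    have hmb : m ≠ b := by
      rintro rfl
      exact hi' hm.symm
    have hm1 : m ∈ Set.Ioo b (b + N) := ⟨by omega, h2⟩
    have hmK : |m| ≤ (K : ℤ) := abs_le.2 ⟨by omega, by omega⟩
    obtain ⟨t, ht, hcw⟩ := cw_pick (pi := pi) h.ne (K := K) hmK
    refine ⟨gen _ ⟨m, hm1⟩, ?_, t, ap_mono ?_ ht, ?_⟩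
    · rw [hβ, mkA_of, hm]
    · rintro s ⟨hs, hs'⟩
      by_contra hout
      have h3 : ¬ (s < b ∨ b + N < s) := hout
      have h4 : s ≠ b := by
        rintro rfl
        exact hi' (by rw [← hm, hs'])
      have h5 : s ≠ b + N := by
        rintro rfl
        rw [h.per] at hs'
        exact hi' (by rw [← hm, hs'])
      exact hs (h.inj hs' (by omega) (by omega))
    · unfold psi
      rw [FreeGroup.lift_apply_of, hι, ← hm, hcw]
  | one => exact ⟨1, by rw [map_one, map_one], 1, one_mem _, by rw [map_one, map_one, one_mul]⟩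
  | mul w₁ w₂ _ _ ih₁ ih₂ =>
    obtain ⟨y₁, e₁, z₁, hz₁, f₁⟩ := ih₁
    obtain ⟨y₂, e₂, z₂, hz₂, f₂⟩ := ih₂
    refine ⟨y₁ * y₂, by rw [map_mul, map_mul, e₁, e₂], z₁ * z₂, mul_mem hz₁ hz₂, ?_⟩
    rw [map_mul, f₁, f₂, map_mul]
    calc ι y₁ * z₁ * (ι y₂ * z₂) = ι y₁ * (z₁ * ι y₂) * z₂ := by group
      _ = ι y₁ * (ι y₂ * z₁) * z₂ := by rw [(hcom y₂ z₁ hz₁).eq]
      _ = ι y₁ * ι y₂ * (z₁ * z₂) := by group
  | inv w _ ih =>
    obtain ⟨y, e, z, hz, f⟩ := ih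
    refine ⟨y⁻¹, by rw [map_inv, map_inv, e], z⁻¹, inv_mem hz, ?_⟩
    rw [map_inv, f, map_inv, (hcom y z hz).eq, mul_inv_rev]

end Pool.Agent.H9.AT
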