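import Pool.Agent.H9.AT.Blk

/-!
# [H9 AT DSC] Local descent (45 min)

`P = E ap {a}ᶜ`, `Q = E' ap {b}ᶜ`, `E⁻¹ E' = ι y * z`, `z ∈ ap (out N s)`; `R = E ap {s, s + N}ᶜ` contains `E` and `E'` (`ι y ∈ ap (Ioo s (s + N))`: `iota_mem`). `flag` (`H54/TF/Lft.lean`) for `P`, `Q`, `R` (common elements: `P ∩ Q`: given, `Q ∩ R ∋ E'`,
`P ∩ R ∋ E`): `g₀` with `E⁻¹ g₀ ∈ ap {a}ᶜ`, `E'⁻¹ g₀ ∈ ap {b}ᶜ`, `E⁻¹ g₀ ∈ ap {s, s + N}ᶜ`. `ap_inter`: `E⁻¹ g₀ ∈ ap ((Ioo s (s + N) \ {a}) ∪ out N s)`, `dec_far`: `= u₁ * u₂`, `u₁ ∈ ap (Ioo s (s + N) \ {a})`, `u₂ ∈ ap (out N s)`.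
`E'⁻¹ g₀ = z⁻¹ (ι y)⁻¹ u₁ u₂ = ((ι y)⁻¹ u₁) (z⁻¹ u₂)` (`z` commutes with the elements of `ap (Ioo s (s + N))`: `comm_far`), `z⁻¹ u₂ ∈ ap (out N s) ≤ ap {b}ᶜ`: `(ι y)⁻¹ u₁ ∈ ap {b}ᶜ ⊓ ap (Ioo s (s + N)) = ap (Ioo s (s + N) \ {b})` (`ap_inter`).
`Ioo \ {a} = Subtype.val '' {k | k ≠ a}`; `iota_ap` (surjectivity: `u₁ = ι v`: `map_ap` or `ap_induction`; state it as a private lemma: every element of `ap lin (Subtype.val '' L)` is `ι v`, `v ∈ ap (resM ..) L`): `u₁ = ι v`, `v ∈ ap {k | k ≠ a}`,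
`y⁻¹ v ∈ ap {k | k ≠ b}`. `g = e * β v`: `beta_ap` (`pi k ≠ pi a` for `k ≠ a` in the block: `Cdat.inj`; `pi k ≠ pi s`): `e⁻¹ g = β v ∈ ap M {pi a}ᶜ`, `∈ ap M {pi s}ᶜ`, `e'⁻¹ g = (e⁻¹ e')⁻¹ β v = β (y⁻¹ v) ∈ ap M {pi b}ᶜ`.
-/

set_option autoImplicit false

namespace Pool.Agent.H9.AT

open Pool.H8.CDW Pool.Agent.H52.PAG Pool.Agent.H75.INF Pool.Agent.H54.TF Pool.Agent.H54.AF

variable {B : Type} {M : CoxeterMatrix B} {N : ℤ} {pi : ℤ → B}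

private theorem map_ap' {K : Set ℤ} {L : Set K} (ι : Art (resM lin K) →* Art lin)
    (hg : ∀ k : K, ι (gen (resM lin K) k) = gen lin k.1) :
    (ap (resM lin K) L).map ι = ap lin (Subtype.val '' L) := by
  unfold ap
  rw [MonoidHom.map_closure]
  congr 1
  ext x
  constructor
  · rintro ⟨_, ⟨k, hk, rfl⟩, rfl⟩
    exact ⟨k.1, ⟨k, hk, rfl⟩, (hg k).symm⟩
  · rintro ⟨_, ⟨k, hk, rfl⟩, rfl⟩
    exact ⟨_, ⟨k, hk, rfl⟩, hg k⟩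

theorem descent (h : Cdat M N pi) {s a b : ℤ}
    {ι : Art (resM lin (Set.Ioo s (s + N))) →* Art lin} (hι : ∀ k, ι (gen _ k) = gen lin k.1) (hinj : Function.Injective ι)
    {β : Art (resM lin (Set.Ioo s (s + N))) →* Art M} (hβ : ∀ k, β (gen _ k) = gen M (pi k.1))
    (ha : a ∈ Set.Ioo s (s + N)) (hb : b ∈ Set.Ioo s (s + N)) {e e' : Art M} {E E' z : Art lin}
    {y : Art (resM lin (Set.Ioo s (s + N)))} (hy : β y = e⁻¹ * e') (hz : z ∈ ap lin (out N s)) (hE : E⁻¹ * E' = ι y * z)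
    (hJ : Mt lin ({a}ᶜ) ({b}ᶜ) E E') :
    ∃ g, e⁻¹ * g ∈ ap M ({pi a}ᶜ) ∧ e⁻¹ * g ∈ ap M ({pi s}ᶜ) ∧ e'⁻¹ * g ∈ ap M ({pi b}ᶜ) := by
  obtain ⟨x, hx1, hx2⟩ := hJ
  have hN := h.hN
  obtain ⟨ha1, ha2⟩ := ha
  obtain ⟨hb1, hb2⟩ := hb
  have hIs : Set.Ioo s (s + N) ⊆ ({s, s + N}ᶜ : Set ℤ) := by
    rintro k ⟨h1, h2⟩ h3
    rcases h3 with h3 | h3
    · omega
    · have h4 : k = s + N := h3
      omega
  have hOs : out N s ⊆ ({s, s + N}ᶜ : Set ℤ) := by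
    intro k hk h3
    have h5 : k < s ∨ s + N < k := hk
    rcases h3 with h3 | h3
    · omega
    · have h4 : k = s + N := h3
      omega
  have hOb : out N s ⊆ ({b}ᶜ : Set ℤ) := by
    intro k hk h3
    have h5 : k < s ∨ s + N < k := hk
    have h4 : k = b := h3
    omega
  have hEE : E⁻¹ * E' ∈ ap lin ({s, s + N}ᶜ) := by
    rw [hE]
    exact mul_mem (ap_mono hIs (iota_mem hι y)) (ap_mono hOs hz)
  obtain ⟨g₀, hg1, hg2, hg3⟩ := flag ({a}ᶜ) ({b}ᶜ) ({s, s + N}ᶜ) (a := E) (b := E') (c := E) (x := x) (y := E') (z := E)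
    hx1 hx2 (by rw [inv_mul_cancel]; exact one_mem _) hEE (by rw [inv_mul_cancel]; exact one_mem _)
    (by rw [inv_mul_cancel]; exact one_mem _)
  have hg4 : E⁻¹ * g₀ ∈ ap lin ((Subtype.val '' {k : Set.Ioo s (s + N) | k.1 ≠ a}) ∪ out N s) := by
    have h1 : E⁻¹ * g₀ ∈ ap lin ({a}ᶜ) ⊓ ap lin ({s, s + N}ᶜ) := ⟨hg1, hg3⟩
    rw [ap_inter] at h1
    refine ap_mono ?_ h1
    rintro k ⟨h2, h3⟩
    have h4 : k ≠ a := h2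
    have h5 : k ≠ s := fun e1 => h3 (Or.inl e1)
    have h6 : k ≠ s + N := fun e1 => h3 (Or.inr e1)
    by_cases h7 : s < k ∧ k < s + N
    · exact Or.inl ⟨⟨k, h7⟩, h4, rfl⟩
    · right
      show k < s ∨ s + N < k
      omega
  have hfar : ∀ i ∈ (Set.Ioo s (s + N)), ∀ j ∈ out N s, i + 2 ≤ j ∨ j + 2 ≤ i := by
    rintro i ⟨h1, h2⟩ j hj
    have h3 : j < s ∨ s + N < j := hj
    omega
  obtain ⟨u₁, hu1, u₂, hu2, hu⟩ := dec_far (by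
    rintro _ ⟨k, -, rfl⟩ j hj
    exact hfar k.1 k.2 j hj) hg4
  rw [← map_ap' ι hι] at hu1
  obtain ⟨v, hv, rfl⟩ := hu1
  have hcom : Commute z (ι (y⁻¹ * v)) := (comm_far hfar (iota_mem hι (y⁻¹ * v)) hz).symm
  have hkey : ι (y⁻¹ * v) ∈ ap lin ({b}ᶜ) := by
    have h1 : E'⁻¹ * g₀ = ι (y⁻¹ * v) * (z⁻¹ * u₂) := by
      have h2 : E'⁻¹ * g₀ = (E⁻¹ * E')⁻¹ * (E⁻¹ * g₀) := by group
      rw [h2, hE, hu]
      have h3 : z⁻¹ * ι (y⁻¹ * v) = ι (y⁻¹ * v) * z⁻¹ := hcom.inv_left.eq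
      calc (ι y * z)⁻¹ * (ι v * u₂) = z⁻¹ * ι (y⁻¹ * v) * u₂ := by
            rw [map_mul, map_inv]
            group
        _ = ι (y⁻¹ * v) * (z⁻¹ * u₂) := by rw [h3, mul_assoc]
    have h2 : ι (y⁻¹ * v) = (E'⁻¹ * g₀) * (z⁻¹ * u₂)⁻¹ := by
      rw [h1]
      group
    rw [h2]
    exact mul_mem hg2 (inv_mem (ap_mono hOb (mul_mem (inv_mem hz) hu2)))
  have hv2 : y⁻¹ * v ∈ ap (resM lin (Set.Ioo s (s + N))) {k | k.1 ≠ b} := by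
    rw [← iota_ap hι hinj]
    have h1 : ι (y⁻¹ * v) ∈ ap lin ({b}ᶜ) ⊓ ap lin (Set.Ioo s (s + N)) := ⟨hkey, iota_mem hι _⟩
    rw [ap_inter] at h1
    refine ap_mono ?_ h1
    rintro k ⟨h2, h3⟩
    exact ⟨⟨k, h3⟩, h2, rfl⟩
  refine ⟨e * β v, ?_, ?_, ?_⟩
  · rw [inv_mul_cancel_left]
    refine beta_ap hβ (L := {k | k.1 ≠ a}) ?_ hv
    intro k hk h1
    obtain ⟨h2, h3⟩ := k.2
    exact hk (h.inj h1 (by omega) (by omega))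
  · rw [inv_mul_cancel_left]
    refine beta_ap hβ (L := {k | k.1 ≠ a}) ?_ hv
    intro k _ h1
    obtain ⟨h2, h3⟩ := k.2
    have h4 := h.inj h1 (by omega) (by omega)
    omega
  · have h1 : e'⁻¹ * (e * β v) = β (y⁻¹ * v) := by
      rw [map_mul, map_inv, hy]
      group
    rw [h1]
    refine beta_ap hβ (L := {k | k.1 ≠ b}) ?_ hv2
    intro k hk h2
    obtain ⟨h3, h4⟩ := k.2
    exact hk (h.inj h2 (by omega) (by omega))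

end Pool.Agent.H9.AT
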