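import Pool.Agent.H9.AT.Defs

/-!
# [H9 AT KER] Words which are trivial in the Artin group (30 min)

`psi_ker`: the set of the `w : FreeGroup B` with `∃ d, ∀ K, psi pi K w ∈ ap lin (far K d)` is a subgroup (`far_mono`, maximum of the two `d`), it is normal: it is enough to conjugate by a generator `FreeGroup.of i` and its inverse
(`psi pi K (FreeGroup.of i) = cw pi K i`, `cw_conj`; induction on the conjugating word, `FreeGroup.induction_on` or closure induction), it contains `braidRel M` (`hrel`). So it contains `Subgroup.normalClosure (braidRel M)`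
(`Subgroup.normalClosure_le_normal`), and `mkA M w = 1` means that `w` is in this normal closure (`mkA M` is `PresentedGroup.mk (braidRel M)`: both agree on `FreeGroup.of i`, `FreeGroup.ext_hom`; `QuotientGroup.eq_one_iff`, compare `gen_rel` in `H52/PAG/Defs.lean`).
`exists_word`: every element of `ap M K` is `mkA M w` with `w` in the subgroup generated by the letters of `K` (`Subgroup.map_closure` type argument, or `ap_induction`).
`psi_mem`: such a word is mapped to `ap lin {s | pi s ∈ K}` (closure induction, `cw_mem`, `ap_mono`).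
-/

set_option autoImplicit false

namespace Pool.Agent.H9.AT

open Pool.H8.CDW Pool.Agent.H52.PAG Pool.Agent.H75.INF Pool.Agent.H54.TF Pool.Agent.H54.AF

variable {B : Type} {M : CoxeterMatrix B} {pi : ℤ → B}

/-- the words in the letters of `K` -/
def wd (K : Set B) : Subgroup (FreeGroup B) := Subgroup.closure (FreeGroup.of '' K)

private theorem psi_of' (pi : ℤ → B) (K : ℕ) (i : B) : psi pi K (FreeGroup.of i) = cw pi K i :=
  FreeGroup.lift_apply_of

/-- the words which are mapped to far elements -/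
private def goodW (pi : ℤ → B) : Subgroup (FreeGroup B) where
  carrier := {w | ∃ d : ℤ, ∀ K : ℕ, psi pi K w ∈ ap lin (far K d)}
  one_mem' := ⟨0, fun K => by
    rw [map_one]
    exact one_mem _⟩
  mul_mem' := by
    rintro a b ⟨d, hd⟩ ⟨d', hd'⟩
    refine ⟨max d d', fun K => ?_⟩
    rw [map_mul]
    exact mul_mem (ap_mono (far_mono K (le_max_left d d')) (hd K))
      (ap_mono (far_mono K (le_max_right d d')) (hd' K))
  inv_mem' := by
    rintro a ⟨d, hd⟩
    refine ⟨d, fun K => ?_⟩
    rw [map_inv]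
    exact inv_mem (hd K)

private theorem goodW_conj (hpi : ∀ s, pi s ≠ pi (s + 1)) (g : FreeGroup B) :
    ∀ n ∈ goodW pi, g * n * g⁻¹ ∈ goodW pi := by
  induction g using FreeGroup.induction_on with
  | C1 =>
    intro n hn
    rwa [one_mul, inv_one, mul_one]
  | of i =>
    rintro n ⟨d, hd⟩
    refine ⟨d + 1, fun K => ?_⟩
    rw [map_mul, map_mul, map_inv]
    have h1 := (cw_conj hpi i K d (hd K)).1
    rw [← psi_of' pi K i] at h1
    exact h1
  | inv_of i _ =>
    rintro n ⟨d, hd⟩
    refine ⟨d + 1, fun K => ?_⟩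
    rw [map_mul, map_mul, inv_inv, map_inv]
    have h1 := (cw_conj hpi i K d (hd K)).2
    rw [← psi_of' pi K i] at h1
    exact h1
  | mul x y hx hy =>
    intro n hn
    have h1 : x * y * n * (x * y)⁻¹ = x * (y * n * y⁻¹) * x⁻¹ := by group
    rw [h1]
    exact hx _ (hy n hn)

theorem psi_ker (hpi : ∀ s, pi s ≠ pi (s + 1))
    (hrel : ∀ i j, M i j ≠ 0 → ∃ d : ℤ, ∀ K : ℕ, psi pi K (alt (FreeGroup.of i) (FreeGroup.of j) (M i j) *
      (alt (FreeGroup.of j) (FreeGroup.of i) (M i j))⁻¹) ∈ ap lin (far K d)) {w : FreeGroup B} (hw : mkA M w = 1) :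
    ∃ d : ℤ, ∀ K : ℕ, psi pi K w ∈ ap lin (far K d) := by
  have hn : (goodW pi).Normal := ⟨fun n hn g => goodW_conj hpi g n hn⟩
  have h1 : Subgroup.normalClosure (braidRel M) ≤ goodW pi := by
    refine Subgroup.normalClosure_le_normal ?_
    rintro u ⟨i, j, h, rfl⟩
    exact hrel i j h
  have h2 : mkA M = (PresentedGroup.mk (braidRel M) : FreeGroup B →* Art M) := by
    refine FreeGroup.ext_hom _ _ fun i => ?_
    exact mkA_of M i
  have h3 : (PresentedGroup.mk (braidRel M) w : PresentedGroup (braidRel M)) = 1 := by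
    rw [h2] at hw
    exact hw
  exact h1 ((QuotientGroup.eq_one_iff _).1 h3)

theorem exists_wd {K : Set B} {x : Art M} (hx : x ∈ ap M K) : ∃ w ∈ wd K, mkA M w = x := by
  refine ap_induction (P := fun x => ∃ w ∈ wd K, mkA M w = x) ⟨1, one_mem _, map_one _⟩ ?_ ?_ hx
  · rintro x - k hk ⟨w, hw, rfl⟩
    refine ⟨w * FreeGroup.of k, mul_mem hw (Subgroup.subset_closure ⟨k, hk, rfl⟩), ?_⟩
    rw [map_mul, mkA_of]
  · rintro x - k hk ⟨w, hw, rfl⟩
    refine ⟨w * (FreeGroup.of k)⁻¹, mul_mem hw (inv_mem (Subgroup.subset_closure ⟨k, hk, rfl⟩)), ?_⟩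
    rw [map_mul, map_inv, mkA_of]

theorem psi_mem (K : ℕ) {L : Set B} {w : FreeGroup B} (hw : w ∈ wd L) : psi pi K w ∈ ap lin {s | pi s ∈ L} := by
  refine Subgroup.closure_induction (p := fun w _ => psi pi K w ∈ ap lin {s | pi s ∈ L}) ?_ ?_ ?_ ?_ hw
  · rintro _ ⟨i, hi, rfl⟩
    rw [psi_of']
    refine ap_mono ?_ (cw_mem pi K i)
    rintro s ⟨-, h2⟩
    show pi s ∈ L
    rw [h2]
    exact hi
  · rw [map_one]
    exact one_mem _
  · intro x y _ _ hx hy
    rw [map_mul]
    exact mul_mem hx hy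
  · intro x _ hx
    rw [map_inv]
    exact inv_mem hx

end Pool.Agent.H9.AT
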