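import Pool.Agent.H54.AF.Cmm
import Pool.Agent.H54.TF.Lft

/-!
# [H9 AT LIN] The line

`lin`: the Coxeter matrix on `ℤ` with the labels `3` for neighbours and `2` otherwise. Think notes 1324, 1325.
-/

set_option autoImplicit false

namespace Pool.Agent.H9.AT

open Pool.H8.CDW Pool.Agent.H52.PAG Pool.Agent.H75.INF Pool.Agent.H54.TF Pool.Agent.H54.AF

/-- the line -/
def lin : CoxeterMatrix ℤ where
  M := fun i j => if i = j then 1 else if j = i + 1 ∨ i = j + 1 then 3 else 2
  isSymm := by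
    refine Matrix.IsSymm.ext fun i j => ?_
    show (if j = i then 1 else if i = j + 1 ∨ j = i + 1 then 3 else 2) = (if i = j then 1 else if j = i + 1 ∨ i = j + 1 then 3 else 2)
    split_ifs <;> first | rfl | omega
  diagonal := fun i => if_pos rfl
  off_diagonal := by
    intro i j h
    show (if i = j then 1 else if j = i + 1 ∨ i = j + 1 then 3 else 2) ≠ 1
    rw [if_neg h]
    split_ifs <;> omega

theorem lin_apply (i j : ℤ) : lin i j = if i = j then 1 else if j = i + 1 ∨ i = j + 1 then 3 else 2 := rfl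

theorem lin_ne (i j : ℤ) : lin i j ≠ 0 := by
  rw [lin_apply]
  split_ifs <;> omega

theorem lin_succ (i : ℤ) : lin i (i + 1) = 3 := by
  rw [lin_apply, if_neg (by omega), if_pos (Or.inl rfl)]

theorem lin_pred (i : ℤ) : lin (i + 1) i = 3 := by
  rw [lin_apply, if_neg (by omega), if_pos (Or.inr rfl)]

theorem lin_far {i j : ℤ} (h : i + 2 ≤ j ∨ j + 2 ≤ i) : lin i j = 2 := by
  rw [lin_apply, if_neg (by omega), if_neg (by omega)]

/-- subgroups for distant sets commute -/
theorem comm_far {X Y : Set ℤ} (h : ∀ i ∈ X, ∀ j ∈ Y, i + 2 ≤ j ∨ j + 2 ≤ i) {x y : Art lin} (hx : x ∈ ap lin X)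
    (hy : y ∈ ap lin Y) : Commute x y :=
  comm_ap (fun i hi j hj => lin_far (h i hi j hj)) hx hy

theorem dec_far {X Y : Set ℤ} (h : ∀ i ∈ X, ∀ j ∈ Y, i + 2 ≤ j ∨ j + 2 ≤ i) {x : Art lin} (hx : x ∈ ap lin (X ∪ Y)) :
    ∃ x₁ ∈ ap lin X, ∃ x₂ ∈ ap lin Y, x = x₁ * x₂ :=
  dec_ap (fun i hi j hj => lin_far (h i hi j hj)) hx

/-- every element is in a finite interval -/
theorem exists_Icc (x : Art lin) : ∃ R : ℤ, x ∈ ap lin (Set.Icc (-R) R) := by
  refine art_induction (P := fun x => ∃ R : ℤ, x ∈ ap lin (Set.Icc (-R) R)) ⟨0, one_mem _⟩ ?_ ?_ x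
  · rintro x i ⟨R, hR⟩
    refine ⟨max R |i|, mul_mem (ap_mono ?_ hR) (gen_mem_ap ?_)⟩
    · intro j hj
      have := le_max_left R |i|
      exact ⟨by have := hj.1; omega, hj.2.trans this⟩
    · have h1 := le_max_right R |i|
      have h2 := neg_abs_le i
      have h3 := le_abs_self i
      exact ⟨by omega, by omega⟩
  · rintro x i ⟨R, hR⟩
    refine ⟨max R |i|, mul_mem (ap_mono ?_ hR) (inv_mem (gen_mem_ap ?_))⟩
    · intro j hj
      have := le_max_left R |i|
      exact ⟨by have := hj.1; omega, hj.2.trans this⟩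
    · have h1 := le_max_right R |i|
      have h2 := neg_abs_le i
      have h3 := le_abs_self i
      exact ⟨by omega, by omega⟩

theorem ap_Icc_mono {R R' : ℤ} (h : R ≤ R') {x : Art lin} (hx : x ∈ ap lin (Set.Icc (-R) R)) :
    x ∈ ap lin (Set.Icc (-R') R') :=
  ap_mono (Set.Icc_subset_Icc (by omega) h) hx

end Pool.Agent.H9.AT
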