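import Pool.Agent.H9.AT.Lin
import Pool.Agent.H54.CT.FinA

/-!
# [H9 AT LINF] The Coxeter groups of finite intervals of the line are finite
-/

set_option autoImplicit false

namespace Pool.Agent.H9.AT

open CoxeterSystem Pool.H8.CDW Pool.Agent.H52.PAG Pool.Agent.H75.INF Pool.Agent.H54.TF Pool.Agent.H54.AF

theorem fin_lin (a b : ℤ) : Finite (resM lin (Set.Icc a b)).Group := by
  by_cases h : a ≤ b
  · obtain ⟨m, hm⟩ : ∃ m : ℕ, (m : ℤ) = b - a := ⟨(b - a).toNat, by omega⟩
    refine Pool.Agent.H54.CT.fin_path (resM lin (Set.Icc a b)) (m + 1)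
      (fun i => ⟨a + (min i m : ℕ), by
        rw [Set.mem_Icc]
        constructor <;> omega⟩) ?_ ?_ ?_
    · rintro ⟨x, hx⟩
      rw [Set.mem_Icc] at hx
      refine ⟨(x - a).toNat, by omega, Subtype.ext ?_⟩
      show a + ((min (x - a).toNat m : ℕ) : ℤ) = x
      omega
    · intro i hi
      show lin (a + ((min i m : ℕ) : ℤ)) (a + ((min (i + 1) m : ℕ) : ℤ)) = 3
      have e : a + ((min (i + 1) m : ℕ) : ℤ) = a + ((min i m : ℕ) : ℤ) + 1 := by omega
      rw [e]
      exact lin_succ _
    · intro i j hij hj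
      show lin (a + ((min i m : ℕ) : ℤ)) (a + ((min j m : ℕ) : ℤ)) = 2
      exact lin_far (Or.inl (by omega))
  · have : IsEmpty (Set.Icc a b) := ⟨fun x => by
      have := x.2
      rw [Set.mem_Icc] at this
      omega⟩
    have h1 := (resM lin (Set.Icc a b)).toCoxeterSystem.subgroup_closure_range_simple
    rw [Set.range_eq_empty, Subgroup.closure_empty] at h1
    have h2 : ∀ x : (resM lin (Set.Icc a b)).Group, x = 1 := fun x => by
      have h3 : x ∈ (⊤ : Subgroup (resM lin (Set.Icc a b)).Group) := Subgroup.mem_top x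
      rw [← h1, Subgroup.mem_bot] at h3
      exact h3
    have : Subsingleton (resM lin (Set.Icc a b)).Group := ⟨fun x y => (h2 x).trans (h2 y).symm⟩
    exact Finite.of_subsingleton

end Pool.Agent.H9.AT
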