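import Pool.Agent.H9.AT.Lin

/-!
# [H9 AT PSI] The unrolling: products over the fibres

`pi : ℤ → B`, neighbours have different images. `cw pi K i`: the product of the generators `gen lin s` with `|s| ≤ K`, `pi s = i`. `psi pi K : FreeGroup B →* Art lin`. `far K d`: the integers `s` with `K - d ≤ |s|`.
-/

set_option autoImplicit false

namespace Pool.Agent.H9.AT

open Pool.H8.CDW Pool.Agent.H52.PAG Pool.Agent.H75.INF Pool.Agent.H54.TF Pool.Agent.H54.AF

variable {B : Type}

open Classical in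
/-- one factor -/
noncomputable def gl (pi : ℤ → B) (i : B) (s : ℤ) : Art lin := if pi s = i then gen lin s else 1

/-- the product of the generators over a fibre, in the window `|s| ≤ K` -/
noncomputable def cw (pi : ℤ → B) : ℕ → B → Art lin
  | 0, i => gl pi i 0
  | K + 1, i => cw pi K i * (gl pi i (-(K + 1 : ℤ)) * gl pi i (K + 1 : ℤ))

/-- the homomorphism from the free group -/
noncomputable def psi (pi : ℤ → B) (K : ℕ) : FreeGroup B →* Art lin := FreeGroup.lift (cw pi K)

/-- the elements near the ends of the window or outside -/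
def far (K : ℕ) (d : ℤ) : Set ℤ := {s | (K : ℤ) - d ≤ |s|}

theorem far_mono (K : ℕ) {d d' : ℤ} (h : d ≤ d') : far K d ⊆ far K d' := fun s hs => by
  have h1 : (K : ℤ) - d ≤ |s| := hs
  show (K : ℤ) - d' ≤ |s|
  omega

theorem gl_mem {pi : ℤ → B} {i : B} {s : ℤ} {X : Set ℤ} (h : pi s = i → s ∈ X) : gl pi i s ∈ ap lin X := by
  unfold gl
  by_cases hs : pi s = i
  · rw [if_pos hs]
    exact gen_mem_ap (h hs)
  · rw [if_neg hs]
    exact one_mem _

theorem gen_comm {s t : ℤ} (h : s + 1 ≠ t) (h' : t + 1 ≠ s) : Commute (gen lin s) (gen lin t) := by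
  by_cases e : s = t
  · rw [e]
  · exact comm_far (X := {s}) (Y := {t}) (by
      rintro i rfl j rfl
      omega) (gen_mem_ap rfl) (gen_mem_ap rfl)

theorem gl_comm {pi : ℤ → B} (hpi : ∀ s, pi s ≠ pi (s + 1)) (i : B) (s t : ℤ) : Commute (gl pi i s) (gl pi i t) := by
  unfold gl
  by_cases hs : pi s = i
  · by_cases ht : pi t = i
    · rw [if_pos hs, if_pos ht]
      refine gen_comm ?_ ?_
      · rintro rfl
        exact hpi s (hs.trans ht.symm)
      · rintro rfl
        exact hpi t (ht.trans hs.symm)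
    · rw [if_neg ht]
      exact Commute.one_right _
  · rw [if_neg hs]
    exact Commute.one_left _

private theorem tail_mem {pi : ℤ → B} {i : B} {K : ℕ} {X : Set ℤ} (h1 : pi (-(K + 1 : ℤ)) = i → -(K + 1 : ℤ) ∈ X)
    (h2 : pi (K + 1 : ℤ) = i → (K + 1 : ℤ) ∈ X) : gl pi i (-(K + 1 : ℤ)) * gl pi i (K + 1 : ℤ) ∈ ap lin X :=
  mul_mem (gl_mem h1) (gl_mem h2)

/-- the letters of a window -/
theorem cw_mem (pi : ℤ → B) (K : ℕ) (i : B) : cw pi K i ∈ ap lin {s : ℤ | |s| ≤ K ∧ pi s = i} := by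
  induction K with
  | zero =>
    refine gl_mem fun h => ⟨?_, h⟩
    simp
  | succ K ih =>
    refine mul_mem (ap_mono ?_ ih) (tail_mem (fun h => ⟨?_, h⟩) (fun h => ⟨?_, h⟩))
    · rintro s ⟨h1, h2⟩
      refine ⟨?_, h2⟩
      push_cast
      omega
    · rw [abs_neg, abs_of_nonneg (by omega)]
      push_cast
      rfl
    · rw [abs_of_nonneg (by omega)]
      push_cast
      rfl

/-- elements of one type commute -/
theorem typ_comm {pi : ℤ → B} (hpi : ∀ s, pi s ≠ pi (s + 1)) {i : B} {x y : Art lin} (hx : x ∈ ap lin {s : ℤ | pi s = i})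
    (hy : y ∈ ap lin {s : ℤ | pi s = i}) : Commute x y := by
  have h0 : ∀ s t : ℤ, pi s = i → pi t = i → Commute (gen lin s) (gen lin t) := by
    intro s t hs ht
    refine gen_comm ?_ ?_
    · rintro rfl
      exact hpi s (hs.trans ht.symm)
    · rintro rfl
      exact hpi t (ht.trans hs.symm)
  have h1 : ∀ t : ℤ, pi t = i → Commute x (gen lin t) := by
    intro t ht
    refine ap_induction (P := fun x => Commute x (gen lin t)) (Commute.one_left _) ?_ ?_ hx
    · intro x _ k hk h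
      exact h.mul_left (h0 k t hk ht)
    · intro x _ k hk h
      exact h.mul_left (h0 k t hk ht).inv_left
  refine ap_induction (P := fun y => Commute x y) (Commute.one_right _) ?_ ?_ hy
  · intro y _ k hk h
    exact h.mul_right (h1 k hk)
  · intro y _ k hk h
    exact h.mul_right (h1 k hk).inv_right

/-- a window splits into a smaller window and the rest, which commute -/
theorem cw_split {pi : ℤ → B} (hpi : ∀ s, pi s ≠ pi (s + 1)) (i : B) {R K : ℕ} (h : R ≤ K) :
    ∃ t ∈ ap lin {s : ℤ | (R : ℤ) < |s| ∧ pi s = i}, cw pi K i = cw pi R i * t ∧ Commute (cw pi R i) t := by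
  have key : ∃ t ∈ ap lin {s : ℤ | (R : ℤ) < |s| ∧ pi s = i}, cw pi K i = cw pi R i * t := by
    induction K, h using Nat.le_induction with
    | base => exact ⟨1, one_mem _, (mul_one _).symm⟩
    | succ K hK ih =>
      obtain ⟨t, ht, e⟩ := ih
      refine ⟨t * (gl pi i (-(K + 1 : ℤ)) * gl pi i (K + 1 : ℤ)), mul_mem ht (tail_mem (fun h => ⟨?_, h⟩) (fun h => ⟨?_, h⟩)), ?_⟩
      · rw [abs_neg, abs_of_nonneg (by omega)]
        omega
      · rw [abs_of_nonneg (by omega)]
        omega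
      · show cw pi K i * _ = _
        rw [e, mul_assoc]
  obtain ⟨t, ht, e⟩ := key
  exact ⟨t, ht, e, typ_comm hpi (ap_mono (fun s hs => hs.2) (cw_mem pi R i)) (ap_mono (fun s hs => hs.2) ht)⟩

/-- one letter of a window -/
theorem cw_pick {pi : ℤ → B} (hpi : ∀ s, pi s ≠ pi (s + 1)) {K : ℕ} {m : ℤ} (h : |m| ≤ K) :
    ∃ t ∈ ap lin {s : ℤ | s ≠ m ∧ pi s = pi m}, cw pi K (pi m) = gen lin m * t := by
  induction K with
  | zero =>
    have hm : m = 0 := by
      have h1 : |m| ≤ 0 := by exact_mod_cast h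
      exact abs_nonpos_iff.1 h1
    refine ⟨1, one_mem _, ?_⟩
    show gl pi (pi m) 0 = _
    unfold gl
    rw [hm, if_pos rfl, mul_one]
  | succ K ih =>
    by_cases hK : |m| ≤ K
    · obtain ⟨t, ht, e⟩ := ih hK
      refine ⟨t * (gl pi (pi m) (-(K + 1 : ℤ)) * gl pi (pi m) (K + 1 : ℤ)), mul_mem ht (tail_mem (fun h => ⟨?_, h⟩) (fun h => ⟨?_, h⟩)), ?_⟩
      · rintro rfl
        rw [abs_neg, abs_of_nonneg (by omega)] at hK
        omega
      · rintro rfl
        rw [abs_of_nonneg (by omega)] at hK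
        omega
      · show cw pi K (pi m) * _ = _
        rw [e, mul_assoc]
    · have h1 : m = K + 1 ∨ m = -(K + 1 : ℤ) := by
        push_cast at h
        rcases abs_cases m with h2 | h2
        · left; omega
        · right; omega
      have hc := cw_mem pi K (pi m)
      have hc1 : cw pi K (pi m) ∈ ap lin {s : ℤ | pi s = pi m} := ap_mono (fun s hs => hs.2) hc
      have hc2 : cw pi K (pi m) ∈ ap lin {s : ℤ | s ≠ m ∧ pi s = pi m} := by
        refine ap_mono ?_ hc
        rintro s ⟨h2, h3⟩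
        refine ⟨?_, h3⟩
        rintro rfl
        exact hK h2
      have hg : ∀ u : ℤ, gl pi (pi m) u ∈ ap lin {s : ℤ | pi s = pi m} := fun u => gl_mem fun h => h
      rcases h1 with h1 | h1
      · refine ⟨cw pi K (pi m) * gl pi (pi m) (-(K + 1 : ℤ)), mul_mem hc2 (gl_mem fun h => ⟨by omega, h⟩), ?_⟩
        have e1 : gl pi (pi m) (K + 1 : ℤ) = gen lin m := by
          unfold gl
          rw [← h1, if_pos rfl]
        show cw pi K (pi m) * (gl pi (pi m) (-(K + 1 : ℤ)) * gl pi (pi m) (K + 1 : ℤ)) = _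
        rw [← mul_assoc, e1]
        have h2 : gen lin m ∈ ap lin {s : ℤ | pi s = pi m} := gen_mem_ap rfl
        exact (typ_comm hpi (mul_mem hc1 (hg _)) h2).eq
      · refine ⟨cw pi K (pi m) * gl pi (pi m) (K + 1 : ℤ), mul_mem hc2 (gl_mem fun h => ⟨by omega, h⟩), ?_⟩
        have e1 : gl pi (pi m) (-(K + 1 : ℤ)) = gen lin m := by
          unfold gl
          rw [← h1, if_pos rfl]
        show cw pi K (pi m) * (gl pi (pi m) (-(K + 1 : ℤ)) * gl pi (pi m) (K + 1 : ℤ)) = _
        have h2 : gen lin m ∈ ap lin {s : ℤ | pi s = pi m} := gen_mem_ap rfl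
        rw [e1, ← mul_assoc, (typ_comm hpi hc1 h2).eq, mul_assoc]

/-- conjugation by a letter -/
theorem cw_conj {pi : ℤ → B} (hpi : ∀ s, pi s ≠ pi (s + 1)) (i : B) (K : ℕ) (d : ℤ) {x : Art lin} (hx : x ∈ ap lin (far K d)) :
    cw pi K i * x * (cw pi K i)⁻¹ ∈ ap lin (far K (d + 1)) ∧ (cw pi K i)⁻¹ * x * cw pi K i ∈ ap lin (far K (d + 1)) := by
  have hx' : x ∈ ap lin (far K (d + 1)) := ap_mono (far_mono K (by omega)) hx
  -- the window is the product of a part in `far K (d + 1)` and of a part which commutes with `x`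
  obtain ⟨u, t, hu, ht, e, e'⟩ : ∃ u t : Art lin, Commute u x ∧ t ∈ ap lin (far K (d + 1)) ∧ cw pi K i = t * u ∧
      cw pi K i = u * t := by
    by_cases h1 : (K : ℤ) - d - 2 < 0
    · refine ⟨1, cw pi K i, Commute.one_left _, ap_mono ?_ (cw_mem pi K i), (mul_one _).symm, (one_mul _).symm⟩
      rintro s ⟨h2, h3⟩
      show (K : ℤ) - (d + 1) ≤ |s|
      have := abs_nonneg s
      omega
    · obtain ⟨R, hR⟩ : ∃ R : ℕ, (R : ℤ) = (K : ℤ) - d - 2 := ⟨((K : ℤ) - d - 2).toNat, Int.toNat_of_nonneg (by omega)⟩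
      by_cases hRK : R ≤ K
      · obtain ⟨t, ht, e1, e2⟩ := cw_split hpi i hRK
        refine ⟨cw pi R i, t, ?_, ap_mono ?_ ht, by rw [e1, e2.eq], e1⟩
        · refine comm_far (X := {s : ℤ | |s| ≤ R ∧ pi s = i}) (Y := far K d) ?_ (cw_mem pi R i) hx
          rintro s ⟨h2, -⟩ t' h3
          have h4 : (K : ℤ) - d ≤ |t'| := h3
          rcases abs_cases s with h5 | h5 <;> rcases abs_cases t' with h6 | h6 <;> omega
        · rintro s ⟨h2, h3⟩
          show (K : ℤ) - (d + 1) ≤ |s|
          omega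
      · refine ⟨cw pi K i, 1, ?_, one_mem _, (one_mul _).symm, (mul_one _).symm⟩
        refine comm_far (X := {s : ℤ | |s| ≤ K ∧ pi s = i}) (Y := far K d) ?_ (cw_mem pi K i) hx
        rintro s ⟨h2, -⟩ t' h3
        have h4 : (K : ℤ) - d ≤ |t'| := h3
        rcases abs_cases s with h5 | h5 <;> rcases abs_cases t' with h6 | h6 <;> omega
  constructor
  · have e1 : cw pi K i * x * (cw pi K i)⁻¹ = t * x * t⁻¹ := by
      rw [e]
      calc t * u * x * (t * u)⁻¹ = t * (u * x) * u⁻¹ * t⁻¹ := by group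
        _ = t * (x * u) * u⁻¹ * t⁻¹ := by rw [hu.eq]
        _ = _ := by group
    rw [e1]
    exact mul_mem (mul_mem ht hx') (inv_mem ht)
  · have e1 : (cw pi K i)⁻¹ * x * cw pi K i = t⁻¹ * x * t := by
      rw [e']
      calc (u * t)⁻¹ * x * (u * t) = t⁻¹ * u⁻¹ * (x * u) * t := by group
        _ = t⁻¹ * u⁻¹ * (u * x) * t := by rw [hu.eq]
        _ = _ := by group
    rw [e1]
    exact mul_mem (mul_mem (inv_mem ht) hx') ht

end Pool.Agent.H9.AT
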